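import Mathlib

set_option autoImplicit false

/-!
# Entire solutions of second order `q`-difference recursions

`F(x) = (1 + B) G₁(x) F(q x) - B G₂(x) F(q² x)` with `G₁(0) = G₂(0) = 1`.
-/

namespace Pool.Agent.helper71.NO

open Finset

noncomputable section

/-- super-geometric decay of the coefficients (entire functions) -/
def Ent (a : ℕ → ℝ) : Prop := ∀ R : ℝ, 0 < R → ∃ M : ℝ, ∀ i, |a i| * R ^ i ≤ M

/-- the coefficients of the solution -/
def cf (q B : ℝ) (a b : ℕ → ℝ) : ℕ → ℝ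
  | 0 => 1
  | (k + 1) => (∑ j : Fin (k + 1), ((1 + B) * a (k + 1 - j) * q ^ (j : ℕ) -
      B * b (k + 1 - j) * (q ^ (j : ℕ)) ^ 2) * cf q B a b j) / ((1 - q ^ (k + 1)) * (1 - B * q ^ (k + 1)))
  decreasing_by exact j.2

lemma cf_zero (q B : ℝ) (a b : ℕ → ℝ) : cf q B a b 0 = 1 := by
  rw [cf]

lemma cf_succ (q B : ℝ) (a b : ℕ → ℝ) (k : ℕ) : cf q B a b (k + 1) =
    (∑ j ∈ range (k + 1), ((1 + B) * a (k + 1 - j) * q ^ j -
      B * b (k + 1 - j) * (q ^ j) ^ 2) * cf q B a b j) / ((1 - q ^ (k + 1)) * (1 - B * q ^ (k + 1))) := by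
  rw [cf, Finset.sum_range]

variable {q B : ℝ} {a b : ℕ → ℝ}

lemma den_pos (hq : 0 < q) (hq1 : q < 1) (hB0 : 0 ≤ B) (hB1 : B ≤ 1) (k : ℕ) :
    (1 - q) ^ 2 ≤ (1 - q ^ (k + 1)) * (1 - B * q ^ (k + 1)) := by
  have h1 : q ^ (k + 1) ≤ q := by
    have := pow_le_one₀ hq.le hq1.le (n := k)
    rw [pow_succ]
    nlinarith
  have h0 : 0 < q ^ (k + 1) := pow_pos hq _
  have h2 : B * q ^ (k + 1) ≤ q := by nlinarith
  have h3 : 1 - q ≤ 1 - q ^ (k + 1) := by linarith
  have h4 : 1 - q ≤ 1 - B * q ^ (k + 1) := by linarith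
  have h5 : 0 < 1 - q := by linarith
  nlinarith

/-- the recursion in Cauchy product form -/
lemma cf_rec (hq : 0 < q) (hq1 : q < 1) (hB0 : 0 ≤ B) (hB1 : B ≤ 1) (ha : a 0 = 1) (hb : b 0 = 1) (k : ℕ) :
    cf q B a b k = ∑ j ∈ range (k + 1), ((1 + B) * a (k - j) * q ^ j -
      B * b (k - j) * (q ^ j) ^ 2) * cf q B a b j := by
  rcases k with _ | k
  · simp [cf_zero, ha, hb]
  · rw [sum_range_succ]
    have hd := den_pos hq hq1 hB0 hB1 k
    have h5 : 0 < (1 - q) ^ 2 := by
      have : 0 < 1 - q := by linarith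
      positivity
    have hd' : (1 - q ^ (k + 1)) * (1 - B * q ^ (k + 1)) ≠ 0 := (lt_of_lt_of_le h5 hd).ne'
    have h := cf_succ q B a b k
    rw [eq_div_iff hd'] at h
    rw [Nat.sub_self, ha, hb]
    linear_combination h

lemma cf_bound (hq : 0 < q) (hq1 : q < 1) (hB0 : 0 ≤ B) (hB1 : B ≤ 1)
    (ha : Ent a) (hb : Ent b) : Ent (cf q B a b) := by
  intro R hR
  obtain ⟨M1, hM1⟩ := ha R hR
  obtain ⟨M2, hM2⟩ := hb R hR
  have hM1' : 0 ≤ M1 := le_trans (by positivity) (hM1 0)
  have hM2' : 0 ≤ M2 := le_trans (by positivity) (hM2 0)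
  set M := (2 * M1 + M2) / (1 - q) ^ 2 with hM
  have h1q : 0 < 1 - q := by linarith
  have hM0 : 0 ≤ M := by positivity
  set d : ℕ → ℝ := fun k => |cf q B a b k| * R ^ k with hd
  have hd0 : ∀ k, 0 ≤ d k := fun k => by simp only [hd]; positivity
  have hstep : ∀ k, d (k + 1) ≤ M * ∑ j ∈ range (k + 1), q ^ j * d j := by
    intro k
    simp only [hd]
    rw [cf_succ, abs_div]
    have hden := den_pos hq hq1 hB0 hB1 k
    have hpos : 0 < (1 - q) ^ 2 := by positivity
    have hpos2 := lt_of_lt_of_le hpos hden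
    rw [abs_of_pos hpos2, div_mul_eq_mul_div, div_le_iff₀ hpos2]
    have e1 : |∑ j ∈ range (k + 1), ((1 + B) * a (k + 1 - j) * q ^ j -
        B * b (k + 1 - j) * (q ^ j) ^ 2) * cf q B a b j| * R ^ (k + 1) ≤
        (2 * M1 + M2) * ∑ j ∈ range (k + 1), q ^ j * (|cf q B a b j| * R ^ j) := by
      refine le_trans (mul_le_mul_of_nonneg_right (abs_sum_le_sum_abs _ _) (by positivity)) ?_
      rw [sum_mul, mul_sum]
      apply sum_le_sum
      intro j hj
      have hj' : j ≤ k := by have := mem_range.1 hj; omega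
      rw [abs_mul]
      have eR : R ^ (k + 1) = R ^ (k + 1 - j) * R ^ j := by
        rw [← pow_add]; congr 1; omega
      rw [eR]
      have hqj : 0 < q ^ j := pow_pos hq j
      have hqj1 : q ^ j ≤ 1 := pow_le_one₀ hq.le hq1.le
      have b1 : |(1 + B) * a (k + 1 - j) * q ^ j - B * b (k + 1 - j) * (q ^ j) ^ 2| * R ^ (k + 1 - j) ≤
          (2 * M1 + M2) * q ^ j := by
        have t1 := hM1 (k + 1 - j)
        have t2 := hM2 (k + 1 - j)
        have hRp : 0 < R ^ (k + 1 - j) := pow_pos hR _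
        have s1 : |(1 + B) * a (k + 1 - j) * q ^ j - B * b (k + 1 - j) * (q ^ j) ^ 2| ≤
            (2 * |a (k + 1 - j)| + |b (k + 1 - j)|) * q ^ j := by
          refine le_trans (abs_sub _ _) ?_
          rw [abs_mul, abs_mul, abs_mul, abs_mul, abs_of_nonneg hB0, abs_of_pos hqj,
            abs_of_nonneg (by linarith : (0:ℝ) ≤ 1 + B), abs_of_nonneg (by positivity : (0:ℝ) ≤ (q ^ j) ^ 2)]
          have u1 : (1 + B) * |a (k + 1 - j)| ≤ 2 * |a (k + 1 - j)| :=
            mul_le_mul_of_nonneg_right (by linarith) (abs_nonneg _)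
          have u2 : B * |b (k + 1 - j)| ≤ |b (k + 1 - j)| := by
            have := abs_nonneg (b (k + 1 - j))
            nlinarith
          have u3 : (q ^ j) ^ 2 ≤ q ^ j := by nlinarith
          have u4 : B * |b (k + 1 - j)| * (q ^ j) ^ 2 ≤ |b (k + 1 - j)| * q ^ j :=
            mul_le_mul u2 u3 (by positivity) (abs_nonneg _)
          have u5 := mul_le_mul_of_nonneg_right u1 hqj.le
          linarith
        refine le_trans (mul_le_mul_of_nonneg_right s1 hRp.le) ?_
        have : (2 * |a (k + 1 - j)| + |b (k + 1 - j)|) * q ^ j * R ^ (k + 1 - j) =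
            (2 * (|a (k + 1 - j)| * R ^ (k + 1 - j)) + |b (k + 1 - j)| * R ^ (k + 1 - j)) * q ^ j := by ring
        rw [this]
        apply mul_le_mul_of_nonneg_right _ hqj.le
        linarith
      calc _ = (|(1 + B) * a (k + 1 - j) * q ^ j - B * b (k + 1 - j) * (q ^ j) ^ 2| * R ^ (k + 1 - j)) *
            (|cf q B a b j| * R ^ j) := by ring
        _ ≤ ((2 * M1 + M2) * q ^ j) * (|cf q B a b j| * R ^ j) :=
            mul_le_mul_of_nonneg_right b1 (by positivity)
        _ = _ := by ring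
    refine le_trans e1 ?_
    have hS : 0 ≤ ∑ j ∈ range (k + 1), q ^ j * (|cf q B a b j| * R ^ j) := by
      apply sum_nonneg; intro j _; positivity
    have e2 : M * (∑ j ∈ range (k + 1), q ^ j * (|cf q B a b j| * R ^ j)) * (1 - q) ^ 2 =
        (2 * M1 + M2) * ∑ j ∈ range (k + 1), q ^ j * (|cf q B a b j| * R ^ j) := by
      rw [hM]; field_simp
    rw [← e2]
    exact mul_le_mul_of_nonneg_left hden (by positivity)
  -- Gronwall
  set s : ℕ → ℝ := fun k => ∑ j ∈ range (k + 1), q ^ j * d j with hs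
  have hs0 : s 0 = 1 := by simp [hs, hd, cf_zero]
  have hsstep : ∀ k, s (k + 1) ≤ s k * (1 + M * q ^ (k + 1)) := by
    intro k
    have h1 : s (k + 1) = s k + q ^ (k + 1) * d (k + 1) := by
      simp only [hs]; rw [sum_range_succ]
    have h2 := hstep k
    have h3 := mul_le_mul_of_nonneg_left h2 (pow_pos hq (k + 1)).le
    rw [h1]
    have h4 : q ^ (k + 1) * (M * ∑ j ∈ range (k + 1), q ^ j * d j) = s k * (M * q ^ (k + 1)) := by
      simp only [hs]; ring
    rw [h4] at h3
    linarith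
  have hsb : ∀ k, s k ≤ Real.exp (M * ∑ j ∈ range (k + 1), q ^ j) := by
    intro k
    induction k with
    | zero =>
      rw [hs0]
      exact Real.one_le_exp (by simp [hM0])
    | succ k ih =>
      refine le_trans (hsstep k) ?_
      rw [sum_range_succ, mul_add M, Real.exp_add]
      have h1 : 0 ≤ M * q ^ (k + 1) := by positivity
      have h2 : 1 + M * q ^ (k + 1) ≤ Real.exp (M * q ^ (k + 1)) := by
        have := Real.add_one_le_exp (M * q ^ (k + 1))
        linarith
      exact mul_le_mul ih h2 (by linarith) (Real.exp_pos _).le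
  have hgeo : ∀ k, ∑ j ∈ range (k + 1), q ^ j ≤ 1 / (1 - q) := by
    intro k
    have hsum : Summable fun j : ℕ => q ^ j := summable_geometric_of_lt_one hq.le hq1
    have := hsum.sum_le_tsum (range (k + 1)) (fun j _ => by positivity)
    rw [tsum_geometric_of_lt_one hq.le hq1] at this
    simpa using this
  set C := Real.exp (M * (1 / (1 - q))) with hC
  have hsC : ∀ k, s k ≤ C := fun k => le_trans (hsb k)
    (Real.exp_le_exp.2 (mul_le_mul_of_nonneg_left (hgeo k) hM0))
  refine ⟨max 1 (M * C), fun k => ?_⟩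
  rcases k with _ | k
  · simp [cf_zero]
  · refine le_trans (hstep k) (le_trans (mul_le_mul_of_nonneg_left (hsC k) hM0) (le_max_right _ _))

end

end Pool.Agent.helper71.NO
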