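import Mathlib
import Pool.Agent.helper71.NO.Coef

set_option autoImplicit false

namespace Pool.Agent.helper71.NO

open Finset

noncomputable section

/-- evaluation of a power series with real coefficients at a complex number -/
def ev (c : ℕ → ℝ) (x : ℂ) : ℂ := ∑' k, (c k : ℂ) * x ^ k

/-- evaluation at a real number -/
def evr (c : ℕ → ℝ) (x : ℝ) : ℝ := ∑' k, c k * x ^ k

lemma ev_ofReal (c : ℕ → ℝ) (x : ℝ) : ev c (x : ℂ) = ((evr c x : ℝ) : ℂ) := by
  unfold ev evr
  rw [Complex.ofReal_tsum]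
  congr 1
  funext k
  push_cast
  ring

lemma Ent.summable {c : ℕ → ℝ} (hc : Ent c) {r : ℝ} (hr : 0 ≤ r) : Summable fun k => |c k| * r ^ k := by
  obtain ⟨M, hM⟩ := hc (2 * (r + 1)) (by positivity)
  have hM0 : 0 ≤ M := le_trans (by positivity) (hM 0)
  refine Summable.of_nonneg_of_le (fun k => by positivity) (fun k => ?_)
    ((summable_geometric_of_lt_one (by norm_num : (0:ℝ) ≤ 1 / 2) (by norm_num)).mul_left M)
  have h1 := hM k
  have h2 : r ^ k ≤ (r + 1) ^ k := pow_le_pow_left₀ hr (by linarith) k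
  have h3 : (2 * (r + 1)) ^ k = 2 ^ k * (r + 1) ^ k := mul_pow _ _ _
  have h4 : |c k| * r ^ k * 2 ^ k ≤ M := by
    calc |c k| * r ^ k * 2 ^ k ≤ |c k| * (r + 1) ^ k * 2 ^ k := by gcongr
      _ = |c k| * (2 * (r + 1)) ^ k := by rw [h3]; ring
      _ ≤ M := h1
  have h5 : (0:ℝ) < 2 ^ k := by positivity
  rw [one_div, inv_pow, ← div_eq_mul_inv, le_div_iff₀ h5]
  exact h4

lemma Ent.summable_norm {c : ℕ → ℝ} (hc : Ent c) (x : ℂ) : Summable fun k => ‖(c k : ℂ) * x ^ k‖ := by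
  refine (hc.summable (norm_nonneg x)).congr (fun k => ?_)
  rw [norm_mul, norm_pow, Complex.norm_real, Real.norm_eq_abs]

lemma Ent.hasSum {c : ℕ → ℝ} (hc : Ent c) (x : ℂ) : HasSum (fun k => (c k : ℂ) * x ^ k) (ev c x) :=
  (hc.summable_norm x).of_norm.hasSum

lemma Ent.hasSum_real {c : ℕ → ℝ} (hc : Ent c) (x : ℝ) : HasSum (fun k => c k * x ^ k) (evr c x) := by
  apply Summable.hasSum
  apply Summable.of_norm
  refine (hc.summable (abs_nonneg x)).congr (fun k => ?_)
  rw [Real.norm_eq_abs, abs_mul, abs_pow]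

lemma evr_zero (c : ℕ → ℝ) : evr c 0 = c 0 := by
  unfold evr
  rw [tsum_eq_single 0]
  · simp
  · intro k hk
    simp [hk]

lemma Ent.scale {c : ℕ → ℝ} (hc : Ent c) (s : ℝ) : Ent fun k => c k * s ^ k := by
  intro R hR
  obtain ⟨M, hM⟩ := hc (R * (|s| + 1)) (by positivity)
  refine ⟨M, fun i => le_trans ?_ (hM i)⟩
  rw [abs_mul, abs_pow, mul_pow]
  have h1 : |s| ^ i ≤ (|s| + 1) ^ i := pow_le_pow_left₀ (abs_nonneg s) (by linarith) i
  calc |c i| * |s| ^ i * R ^ i ≤ |c i| * (|s| + 1) ^ i * R ^ i := by gcongr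
    _ = _ := by ring

lemma ev_scale (c : ℕ → ℝ) (s : ℝ) (x : ℂ) : ev (fun k => c k * s ^ k) x = ev c (s * x) := by
  unfold ev
  congr 1
  funext k
  push_cast
  rw [mul_pow]
  ring

/-- Cauchy product -/
def conv (a b : ℕ → ℝ) (k : ℕ) : ℝ := ∑ j ∈ range (k + 1), a (k - j) * b j

lemma ev_mul {a b : ℕ → ℝ} (ha : Ent a) (hb : Ent b) (x : ℂ) :
    HasSum (fun k => (conv a b k : ℂ) * x ^ k) (ev a x * ev b x) := by
  have h1 := summable_norm_sum_mul_range_of_summable_norm (hb.summable_norm x) (ha.summable_norm x)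
  have h2 := tsum_mul_tsum_eq_tsum_sum_range_of_summable_norm (hb.summable_norm x) (ha.summable_norm x)
  have e : ∀ k, ∑ j ∈ range (k + 1), ((b j : ℂ) * x ^ j) * ((a (k - j) : ℂ) * x ^ (k - j)) =
      (conv a b k : ℂ) * x ^ k := by
    intro k
    unfold conv
    push_cast
    rw [sum_mul]
    apply sum_congr rfl
    intro j hj
    have : j ≤ k := by have := mem_range.1 hj; omega
    have e1 : x ^ k = x ^ j * x ^ (k - j) := by rw [← pow_add]; congr 1; omega
    rw [e1]
    ring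
  simp_rw [e] at h1 h2
  have h3 := h1.of_norm.hasSum
  rw [← h2] at h3
  have e4 : ev a x * ev b x = (∑' (n : ℕ), (b n : ℂ) * x ^ n) * ∑' (n : ℕ), (a n : ℂ) * x ^ n := by
    unfold ev; ring
  rw [e4]
  exact h3

/-- the functional equation -/
theorem cf_ev {q B : ℝ} {a b : ℕ → ℝ} (hq : 0 < q) (hq1 : q < 1) (hB0 : 0 ≤ B) (hB1 : B ≤ 1)
    (ha : Ent a) (hb : Ent b) (ha0 : a 0 = 1) (hb0 : b 0 = 1) (x : ℂ) :
    ev (cf q B a b) x = (1 + B) * ev a x * ev (cf q B a b) (q * x) -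
      B * ev b x * ev (cf q B a b) (q ^ 2 * x) := by
  have hc := cf_bound hq hq1 hB0 hB1 ha hb
  set c := cf q B a b with hcdef
  have h1 := (ev_mul ha (hc.scale q) x).mul_left (1 + (B : ℂ))
  have h2 := (ev_mul hb (hc.scale (q ^ 2)) x).mul_left (B : ℂ)
  have h3 := h1.sub h2
  rw [ev_scale, ev_scale] at h3
  have e : (fun k => (1 + (B : ℂ)) * (((conv a (fun k => c k * q ^ k) k : ℝ) : ℂ) * x ^ k) -
      (B : ℂ) * (((conv b (fun k => c k * (q ^ 2) ^ k) k : ℝ) : ℂ) * x ^ k)) = fun k => (c k : ℂ) * x ^ k := by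
    funext k
    have hk := cf_rec hq hq1 hB0 hB1 ha0 hb0 k
    rw [← hcdef] at hk
    have hk2 : c k = (1 + B) * conv a (fun k => c k * q ^ k) k - B * conv b (fun k => c k * (q ^ 2) ^ k) k := by
      conv_lhs => rw [hk]
      unfold conv
      rw [mul_sum, mul_sum, ← sum_sub_distrib]
      apply sum_congr rfl
      intro j _
      have e5 : (q ^ 2) ^ j = (q ^ j) ^ 2 := by rw [← pow_mul, ← pow_mul, mul_comm 2 j]
      beta_reduce
      rw [e5]
      ring
    conv_rhs => rw [hk2]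
    push_cast
    ring
  rw [e] at h3
  have h4 := (hc.hasSum x).unique h3
  rw [h4]
  push_cast
  ring

lemma cf_parity (q B : ℝ) (a b : ℕ → ℝ) (k : ℕ) :
    cf q B (fun i => (-1) ^ i * a i) (fun i => (-1) ^ i * b i) k = (-1) ^ k * cf q B a b k := by
  induction k using Nat.strong_induction_on with
  | _ k ih =>
    rcases k with _ | k
    · simp [cf_zero]
    · rw [cf_succ, cf_succ, ← mul_div_assoc, mul_sum]
      congr 1
      apply sum_congr rfl
      intro j hj
      have hj' := mem_range.1 hj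
      rw [ih j hj']
      have e : (-1 : ℝ) ^ (k + 1) = (-1) ^ (k + 1 - j) * (-1) ^ j := by
        rw [← pow_add]; congr 1; omega
      rw [e]
      ring

lemma ev_neg (c : ℕ → ℝ) (x : ℂ) : ev (fun k => (-1) ^ k * c k) x = ev c (-x) := by
  unfold ev
  congr 1
  funext k
  rw [neg_pow x]
  push_cast
  ring

lemma evr_neg (c : ℕ → ℝ) (x : ℝ) : evr (fun k => (-1) ^ k * c k) x = evr c (-x) := by
  have h := ev_neg c (x : ℂ)
  rw [← Complex.ofReal_neg, ev_ofReal, ev_ofReal] at h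
  exact_mod_cast h

lemma Ent.continuous {c : ℕ → ℝ} (hc : Ent c) : Continuous (evr c) := by
  rw [continuous_iff_continuousAt]
  intro x
  have h1 : ContinuousOn (evr c) (Set.Icc (-(|x| + 1)) (|x| + 1)) := by
    unfold evr
    apply continuousOn_tsum (u := fun k => |c k| * (|x| + 1) ^ k)
    · intro k
      fun_prop
    · exact hc.summable (by positivity)
    · intro k y hy
      rw [Real.norm_eq_abs, abs_mul, abs_pow]
      have : |y| ≤ |x| + 1 := abs_le.2 ⟨hy.1, hy.2⟩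
      gcongr
  apply h1.continuousAt
  apply Icc_mem_nhds
  · have := neg_abs_le x; linarith
  · have := le_abs_self x; linarith

end

end Pool.Agent.helper71.NO
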