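import Mathlib
import Pool.Agent.helper71.NO.Eval

set_option autoImplicit false

namespace Pool.Agent.helper71.NO

open Finset MeasureTheory

noncomputable section

/-- Laurent coefficients of `a(x) b(1/x)` -/
def lc (a b : ℕ → ℝ) (n : ℤ) : ℝ :=
  ∑' p : (fun p : ℕ × ℕ => (p.1 : ℤ) - (p.2 : ℤ)) ⁻¹' {n}, a p.1.1 * b p.1.2

theorem lc_hasSum {a b : ℕ → ℝ} (ha : Ent a) (hb : Ent b) {x : ℂ} (hx : x ≠ 0) :
    HasSum (fun n : ℤ => (lc a b n : ℂ) * x ^ n) (ev a x * ev b x⁻¹) := by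
  have h1 := ha.hasSum x
  have h2 := hb.hasSum x⁻¹
  have hs := summable_mul_of_summable_norm (ha.summable_norm x) (hb.summable_norm x⁻¹)
  have h3 := (h1.mul h2 hs).tsum_fiberwise (fun p : ℕ × ℕ => (p.1 : ℤ) - (p.2 : ℤ))
  have e : (fun n : ℤ => (lc a b n : ℂ) * x ^ n) = fun c : ℤ =>
      ∑' p : (fun p : ℕ × ℕ => (p.1 : ℤ) - (p.2 : ℤ)) ⁻¹' {c},
        (a p.1.1 : ℂ) * x ^ p.1.1 * ((b p.1.2 : ℂ) * x⁻¹ ^ p.1.2) := by
    funext n
    unfold lc
    rw [Complex.ofReal_tsum, ← tsum_mul_right]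
    congr 1
    funext p
    have hp : (p.1.1 : ℤ) - (p.1.2 : ℤ) = n := p.2
    have hx' : x ^ n = x ^ p.1.1 * (x ^ p.1.2)⁻¹ := by
      have e1 : x ^ n = x ^ ((p.1.1 : ℤ) - (p.1.2 : ℤ)) := by rw [hp]
      rw [e1, zpow_sub₀ hx, zpow_natCast, zpow_natCast, div_eq_mul_inv]
    rw [hx', inv_pow]
    push_cast
    ring
  rw [e]
  exact h3

/-- uniqueness of Laurent coefficients -/
theorem laurent_unique {k : ℤ → ℂ} (h : ∀ x : ℂ, ‖x‖ = 1 → HasSum (fun n : ℤ => k n * x ^ n) 0) (n : ℤ) :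
    k n = 0 := by
  have hs : Summable fun m : ℤ => ‖k m‖ := by
    have := (h 1 (by simp)).summable
    simpa using this.norm
  let f : ℤ → C(ℝ, ℂ) := fun m => ⟨fun θ => k m * Complex.exp (((m : ℂ) - n) * Complex.I * θ), by fun_prop⟩
  have hf : ∀ m θ, f m θ = k m * Complex.exp (((m : ℂ) - n) * Complex.I * θ) := fun m θ => rfl
  have hnorm : ∀ m (θ : ℝ), ‖f m θ‖ = ‖k m‖ := by
    intro m θ
    rw [hf, norm_mul]
    have : (((m : ℂ) - n) * Complex.I * θ) = (((m - n : ℤ) : ℝ) * θ : ℝ) * Complex.I := by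
      push_cast; ring
    rw [this, Complex.norm_exp_ofReal_mul_I, mul_one]
  have hsum : Summable fun i : ℤ => ‖(f i).restrict (⟨Set.uIcc 0 (2 * Real.pi), isCompact_uIcc⟩ :
      TopologicalSpace.Compacts ℝ)‖ := by
    refine Summable.of_nonneg_of_le (fun _ => norm_nonneg _) (fun i => ?_) hs
    rw [ContinuousMap.norm_le _ (norm_nonneg _)]
    intro θ
    exact (hnorm i θ).le
  have h1 := intervalIntegral.hasSum_intervalIntegral_of_summable_norm hsum
  have h2 : ∀ θ : ℝ, ∑' i : ℤ, f i θ = 0 := by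
    intro θ
    have hx := h (Complex.exp (θ * Complex.I)) (Complex.norm_exp_ofReal_mul_I θ)
    have h3 := hx.mul_right (Complex.exp (-(n : ℂ) * Complex.I * θ))
    rw [zero_mul] at h3
    rw [← h3.tsum_eq]
    congr 1
    funext m
    rw [hf, ← Complex.exp_int_mul, mul_assoc (k m), ← Complex.exp_add]
    congr 2
    ring
  simp_rw [h2] at h1
  rw [intervalIntegral.integral_zero] at h1
  have h4 : ∀ m, m ≠ n → ∫ θ in (0:ℝ)..(2 * Real.pi), f m θ = 0 := by
    intro m hm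
    simp_rw [hf]
    rw [intervalIntegral.integral_const_mul]
    have hne : ((m : ℂ) - n) * Complex.I ≠ 0 := by
      apply mul_ne_zero _ Complex.I_ne_zero
      rw [sub_ne_zero]
      exact_mod_cast hm
    rw [integral_exp_mul_complex hne]
    have e1 : ((m : ℂ) - n) * Complex.I * ((2 * Real.pi : ℝ) : ℂ) = ((m - n : ℤ) : ℂ) * (2 * Real.pi * Complex.I) := by
      push_cast; ring
    rw [e1, Complex.exp_int_mul_two_pi_mul_I]
    simp
  have h5 := h1.unique (hasSum_single n h4)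
  have h6 : ∫ θ in (0:ℝ)..(2 * Real.pi), f n θ = 2 * Real.pi * k n := by
    simp_rw [hf]
    simp
  rw [h6] at h5
  have hpi : (2 * (Real.pi : ℂ)) ≠ 0 := by
    have := Real.pi_ne_zero
    simp [this]
  exact (mul_eq_zero.1 h5.symm).resolve_left hpi

end

end Pool.Agent.helper71.NO
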