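import Mathlib
import Pool.Agent.helper71.NO.Laurent

set_option autoImplicit false

namespace Pool.Agent.helper71.NO

open Finset

noncomputable section

/-- the coefficients of a polynomial of degree at most four -/
def q5 (a0 a1 a2 a3 a4 : ℝ) : ℕ → ℝ
  | 0 => a0
  | 1 => a1
  | 2 => a2
  | 3 => a3
  | 4 => a4
  | _ => 0

lemma q5_ge (a0 a1 a2 a3 a4 : ℝ) {n : ℕ} (hn : 5 ≤ n) : q5 a0 a1 a2 a3 a4 n = 0 := by
  obtain ⟨m, rfl⟩ := Nat.exists_eq_add_of_le hn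
  rw [add_comm]
  rfl

lemma q5_ent (a0 a1 a2 a3 a4 : ℝ) : Ent (q5 a0 a1 a2 a3 a4) := by
  intro R hR
  refine ⟨∑ i ∈ range 5, |q5 a0 a1 a2 a3 a4 i| * R ^ i, fun i => ?_⟩
  by_cases hi : i < 5
  · exact single_le_sum (f := fun i => |q5 a0 a1 a2 a3 a4 i| * R ^ i) (fun j _ => by positivity) (mem_range.2 hi)
  · rw [q5_ge _ _ _ _ _ (not_lt.1 hi)]
    simp only [abs_zero, zero_mul]
    positivity

lemma q5_ev (a0 a1 a2 a3 a4 : ℝ) (x : ℂ) : ev (q5 a0 a1 a2 a3 a4) x =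
    a0 + a1 * x + a2 * x ^ 2 + a3 * x ^ 3 + a4 * x ^ 4 := by
  unfold ev
  rw [tsum_eq_sum (s := range 5)]
  · simp only [sum_range_succ, sum_range_zero, q5]
    ring
  · intro k hk
    rw [q5_ge _ _ _ _ _ (not_lt.1 (fun h => hk (mem_range.2 h)))]
    simp

/-- coefficients of `A` -/
def Aco (κ q β : ℝ) : ℕ → ℝ :=
  cf q (β ^ 2) (q5 1 (-2 * κ) 1 0 0)
    (q5 1 (-2 * κ * (1 + q ^ 2)) (1 + q ^ 4 + 4 * κ ^ 2 * q ^ 2) (-2 * κ * (q ^ 2 + q ^ 4)) (q ^ 4))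

/-- coefficients of `U` -/
def Uco (κ q σ : ℝ) : ℕ → ℝ :=
  cf q (q ^ 2 / σ ^ 2) (q5 1 (-2 * κ * q ^ 2) (q ^ 4) 0 0)
    (q5 1 (-2 * κ * (q + q ^ 3)) (q ^ 2 + q ^ 6 + 4 * κ ^ 2 * q ^ 4) (-2 * κ * (q ^ 5 + q ^ 7)) (q ^ 8))

/-- the quadratic -/
def gC (κ : ℝ) (x : ℂ) : ℂ := 1 - 2 * κ * x + x ^ 2

/-- the quadratic, real version -/
def gR (κ x : ℝ) : ℝ := 1 - 2 * κ * x + x ^ 2

lemma gC_ofReal (κ x : ℝ) : gC κ (x : ℂ) = ((gR κ x : ℝ) : ℂ) := by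
  unfold gC gR; push_cast; ring

lemma gR_pos {κ : ℝ} (hκ : κ ^ 2 < 1) (x : ℝ) : 0 < gR κ x := by
  unfold gR; nlinarith [sq_nonneg (x - κ)]

/-- the parameters -/
structure Par (κ q τ β σ : ℝ) : Prop where
  hκ : κ ^ 2 < 1
  hq : 0 < q
  hq1 : q < 1
  hβ : 0 < β
  hβ1 : β ≤ 1
  h1 : 1 + β ^ 2 = 2 * τ * β
  hσ : q < σ
  h2 : σ ^ 2 + q ^ 2 = 2 * τ * σ

variable {κ q τ β σ : ℝ}

lemma Par.σpos (P : Par κ q τ β σ) : 0 < σ := P.hq.trans P.hσ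

lemma Par.γ0 (P : Par κ q τ β σ) : 0 ≤ q ^ 2 / σ ^ 2 := by positivity

lemma Par.γ1 (P : Par κ q τ β σ) : q ^ 2 / σ ^ 2 ≤ 1 := by
  have := P.σpos
  rw [div_le_one (by positivity)]
  have := P.hσ
  have := P.hq
  nlinarith

lemma Par.B1 (P : Par κ q τ β σ) : β ^ 2 ≤ 1 := by
  have := P.hβ; have := P.hβ1; nlinarith

lemma Par.neg (P : Par κ q τ β σ) : Par (-κ) q τ β σ :=
  ⟨by rw [neg_sq]; exact P.hκ, P.hq, P.hq1, P.hβ, P.hβ1, P.h1, P.hσ, P.h2⟩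

lemma Par.entA (P : Par κ q τ β σ) : Ent (Aco κ q β) :=
  cf_bound P.hq P.hq1 (by positivity) P.B1 (q5_ent _ _ _ _ _) (q5_ent _ _ _ _ _)

lemma Par.entU (P : Par κ q τ β σ) : Ent (Uco κ q σ) :=
  cf_bound P.hq P.hq1 P.γ0 P.γ1 (q5_ent _ _ _ _ _) (q5_ent _ _ _ _ _)

/-- functional equation of `A` -/
lemma Par.feA (P : Par κ q τ β σ) (x : ℂ) : ev (Aco κ q β) x =
    gC κ x * ((1 + (β : ℂ) ^ 2) * ev (Aco κ q β) (q * x) - (β : ℂ) ^ 2 * gC κ (q ^ 2 * x) * ev (Aco κ q β) (q ^ 2 * x)) := by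
  have h := cf_ev P.hq P.hq1 (B := β ^ 2) (by positivity) P.B1 (q5_ent 1 (-2 * κ) 1 0 0)
    (q5_ent 1 (-2 * κ * (1 + q ^ 2)) (1 + q ^ 4 + 4 * κ ^ 2 * q ^ 2) (-2 * κ * (q ^ 2 + q ^ 4)) (q ^ 4)) rfl rfl x
  rw [q5_ev, q5_ev] at h
  unfold Aco gC
  rw [h]
  push_cast
  ring

/-- functional equation of `U` -/
lemma Par.feU (P : Par κ q τ β σ) (y : ℂ) : ev (Uco κ q σ) y =
    (1 + (q : ℂ) ^ 2 / (σ : ℂ) ^ 2) * gC κ (q ^ 2 * y) * ev (Uco κ q σ) (q * y) -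
      (q : ℂ) ^ 2 / (σ : ℂ) ^ 2 * gC κ (q * y) * gC κ (q ^ 3 * y) * ev (Uco κ q σ) (q ^ 2 * y) := by
  have h := cf_ev P.hq P.hq1 (B := q ^ 2 / σ ^ 2) P.γ0 P.γ1 (q5_ent 1 (-2 * κ * q ^ 2) (q ^ 4) 0 0)
    (q5_ent 1 (-2 * κ * (q + q ^ 3)) (q ^ 2 + q ^ 6 + 4 * κ ^ 2 * q ^ 4) (-2 * κ * (q ^ 5 + q ^ 7)) (q ^ 8)) rfl rfl y
  rw [q5_ev, q5_ev] at h
  unfold Uco gC
  rw [h]
  push_cast
  ring

/-- the function `K`, complex version -/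
def KC (κ q β σ : ℝ) (x : ℂ) : ℂ :=
  σ * ev (Aco κ q β) x * ev (Uco κ q σ) (1 / (q * x)) -
    β * gC κ (q * x) * gC κ (q / x) * ev (Aco κ q β) (q * x) * ev (Uco κ q σ) (1 / x)

/-- the function `K`, real version -/
def KR (κ q β σ x : ℝ) : ℝ :=
  σ * evr (Aco κ q β) x * evr (Uco κ q σ) (1 / (q * x)) -
    β * gR κ (q * x) * gR κ (q / x) * evr (Aco κ q β) (q * x) * evr (Uco κ q σ) (1 / x)

lemma KC_ofReal (κ q β σ x : ℝ) : KC κ q β σ (x : ℂ) = ((KR κ q β σ x : ℝ) : ℂ) := by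
  unfold KC KR
  have e1 : ev (Uco κ q σ) (1 / ((q : ℂ) * (x : ℂ))) = ((evr (Uco κ q σ) (1 / (q * x)) : ℝ) : ℂ) := by
    rw [← ev_ofReal]; push_cast; rfl
  have e2 : ev (Uco κ q σ) (1 / (x : ℂ)) = ((evr (Uco κ q σ) (1 / x) : ℝ) : ℂ) := by
    rw [← ev_ofReal]; push_cast; rfl
  have e3 : ev (Aco κ q β) ((q : ℂ) * (x : ℂ)) = ((evr (Aco κ q β) (q * x) : ℝ) : ℂ) := by
    rw [← ev_ofReal]; push_cast; rfl
  have e4 : gC κ ((q : ℂ) * (x : ℂ)) = ((gR κ (q * x) : ℝ) : ℂ) := by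
    rw [← gC_ofReal]; push_cast; rfl
  have e5 : gC κ ((q : ℂ) / (x : ℂ)) = ((gR κ (q / x) : ℝ) : ℂ) := by
    rw [← gC_ofReal]; push_cast; rfl
  rw [e1, e2, e3, e4, e5, ev_ofReal]
  push_cast
  ring

/-- quasi periodicity -/
theorem Par.KC_q (P : Par κ q τ β σ) {x : ℂ} (hx : x ≠ 0) :
    x ^ 2 * KC κ q β σ (q * x) = 1 / (β * σ) * KC κ q β σ x := by
  have hβ : (β : ℂ) ≠ 0 := by exact_mod_cast P.hβ.ne'
  have hσ : (σ : ℂ) ≠ 0 := by exact_mod_cast P.σpos.ne'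
  have hq : (q : ℂ) ≠ 0 := by exact_mod_cast P.hq.ne'
  have hA := P.feA x
  have hU := P.feU (1 / (q * (q * x)))
  have a1 : (q : ℂ) ^ 2 * (1 / (q * (q * x))) = 1 / x := by field_simp
  have a2 : (q : ℂ) * (1 / (q * (q * x))) = 1 / (q * x) := by field_simp
  have a3 : (q : ℂ) ^ 3 * (1 / (q * (q * x))) = q / x := by field_simp
  have a4 : (q : ℂ) ^ 2 * x = q * (q * x) := by ring
  rw [a1, a2, a3] at hU
  rw [a4] at hA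
  have g1 : gC κ (1 / x) = gC κ x / x ^ 2 := by unfold gC; field_simp; ring
  have g2 : gC κ (1 / (q * x)) = gC κ (q * x) / (q * x) ^ 2 := by unfold gC; field_simp; ring
  have g3 : gC κ (q / (q * x)) = gC κ x / x ^ 2 := by
    rw [← g1]; congr 1; field_simp
  have t1 : (1 : ℂ) + (β : ℂ) ^ 2 = 2 * τ * β := by exact_mod_cast P.h1
  have t2 : (σ : ℂ) ^ 2 + (q : ℂ) ^ 2 = 2 * τ * σ := by exact_mod_cast P.h2
  unfold KC
  rw [hU, g3, g2, g1]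
  generalize ev (Aco κ q β) x = a0 at *
  generalize ev (Aco κ q β) (q * x) = a1' at *
  generalize ev (Aco κ q β) (q * (q * x)) = a2' at *
  generalize ev (Uco κ q σ) (1 / x) = u0 at *
  generalize ev (Uco κ q σ) (1 / (q * x)) = u1 at *
  generalize gC κ x = G0 at *
  generalize gC κ (q * x) = G1 at *
  generalize gC κ (q * (q * x)) = G2 at *
  generalize gC κ (q / x) = H0 at *
  have k1 : (β : ℂ) ^ 2 * (G0 * (G2 * a2')) = (1 + (β : ℂ) ^ 2) * (G0 * a1') - a0 := by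
    rw [hA]; ring
  have k2 : (β : ℂ) * (G0 * (G2 * a2')) = 2 * τ * (G0 * a1') - a0 / β := by
    have : (β : ℂ) * ((β : ℂ) * (G0 * (G2 * a2'))) = β * (2 * τ * (G0 * a1') - a0 / β) := by
      rw [t1] at k1
      have e : (β : ℂ) * (2 * τ * (G0 * a1') - a0 / β) = 2 * τ * β * (G0 * a1') - a0 := by
        field_simp
      rw [e, ← k1]
      ring
    exact mul_left_cancel₀ hβ this
  have k3 : (σ : ℂ) * (1 + (q : ℂ) ^ 2 / (σ : ℂ) ^ 2) = 2 * τ := by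
    field_simp
    linear_combination t2
  have e1 : x ^ 2 * (σ * a1' * ((1 + (q : ℂ) ^ 2 / (σ : ℂ) ^ 2) * (G0 / x ^ 2) * u1 -
        (q : ℂ) ^ 2 / (σ : ℂ) ^ 2 * (G1 / (q * x) ^ 2) * H0 * u0) -
      β * G2 * (G0 / x ^ 2) * a2' * u1) =
      (σ * (1 + (q : ℂ) ^ 2 / (σ : ℂ) ^ 2)) * G0 * u1 * a1' - (1 / σ) * G1 * H0 * a1' * u0
        - β * (G0 * (G2 * a2')) * u1 := by
    field_simp
  rw [e1, k2, k3]
  field_simp
  ring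

end

end Pool.Agent.helper71.NO
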