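import Mathlib

set_option autoImplicit false

namespace Pool.Agent.helper71.NO

open Finset Filter Topology

noncomputable section

lemma summ_nat {Q s : ℝ} (hQ : 0 < Q) (hQ1 : Q < 1) (hs : 0 < s) :
    Summable fun n : ℕ => Q ^ ((n : ℤ) * n) * s ^ (n : ℤ) := by
  have h1 : Tendsto (fun n : ℕ => Q ^ n * s) atTop (𝓝 (0 * s)) :=
    (tendsto_pow_atTop_nhds_zero_of_lt_one hQ.le hQ1).mul_const s
  rw [zero_mul] at h1
  have h2 := h1.eventually (gt_mem_nhds (by norm_num : (0:ℝ) < 1 / 2))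
  refine Summable.of_norm_bounded_eventually_nat (g := fun n => (1 / 2 : ℝ) ^ n)
    (summable_geometric_of_lt_one (by norm_num) (by norm_num)) ?_
  filter_upwards [h2] with n hn
  have e : Q ^ ((n : ℤ) * n) * s ^ (n : ℤ) = (Q ^ n * s) ^ n := by
    rw [zpow_mul, zpow_natCast, zpow_natCast, zpow_natCast, mul_pow]
  rw [e, Real.norm_eq_abs, abs_of_nonneg (by positivity)]
  exact pow_le_pow_left₀ (by positivity) hn.le n

lemma summ_int {Q s : ℝ} (hQ : 0 < Q) (hQ1 : Q < 1) (hs : 0 < s) :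
    Summable fun n : ℤ => Q ^ (n * n) * s ^ n := by
  apply Summable.of_nat_of_neg
  · exact summ_nat hQ hQ1 hs
  · refine (summ_nat hQ hQ1 (inv_pos.2 hs)).congr (fun n => ?_)
    rw [inv_zpow', neg_mul_neg]

/-- first theta function -/
def T2 (q y : ℝ) : ℝ := ∑' m : ℤ, q ^ (m * (m + 1)) * y ^ (2 * m + 1)

/-- second theta function -/
def T3 (q y : ℝ) : ℝ := ∑' m : ℤ, q ^ (m * m) * y ^ (2 * m)

variable {q y : ℝ}

lemma T3_summable (hq : 0 < q) (hq1 : q < 1) (hy : y ≠ 0) : Summable fun m : ℤ => q ^ (m * m) * y ^ (2 * m) := by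
  refine (summ_int hq hq1 (s := y ^ 2) (by positivity)).congr (fun n => ?_)
  rw [zpow_mul y]
  norm_cast

lemma T2_summable (hq : 0 < q) (hq1 : q < 1) (hy : y ≠ 0) :
    Summable fun m : ℤ => q ^ (m * (m + 1)) * y ^ (2 * m + 1) := by
  refine ((summ_int hq hq1 (s := q * y ^ 2) (by positivity)).mul_left y).congr (fun n => ?_)
  rw [mul_add, mul_one, zpow_add₀ hq.ne', zpow_add₀ hy, zpow_one, zpow_mul y, mul_zpow]
  have : (y ^ (2:ℤ)) = y ^ 2 := by norm_cast
  rw [this]
  ring

lemma T3_pos (hq : 0 < q) (hq1 : q < 1) (hy : 0 < y) : 0 < T3 q y :=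
  (T3_summable hq hq1 hy.ne').tsum_pos (fun m => by positivity) 0 (by positivity)

lemma T2_pos (hq : 0 < q) (hq1 : q < 1) (hy : 0 < y) : 0 < T2 q y :=
  (T2_summable hq hq1 hy.ne').tsum_pos (fun m => by positivity) 0 (by positivity)

/-- the theta inequality -/
theorem theta_ineq (hq : 0 < q) (hq1 : q < 1) (hy : 0 < y) :
    ∃ S : ℝ, T2 q y * T3 q 1 - T3 q y * T2 q 1 = S ^ 2 := by
  set Q := Real.sqrt q with hQdef
  set s := Real.sqrt y with hsdef
  have hQ : 0 < Q := Real.sqrt_pos.2 hq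
  have hs : 0 < s := Real.sqrt_pos.2 hy
  have hQ2 : Q ^ 2 = q := Real.sq_sqrt hq.le
  have hs2 : s ^ 2 = y := Real.sq_sqrt hy.le
  have hQ1 : Q < 1 := by nlinarith
  have hQz : ∀ k : ℤ, q ^ k = Q ^ (2 * k) := by
    intro k
    rw [← hQ2, zpow_mul]
    norm_cast
  have hsz : ∀ k : ℤ, y ^ k = s ^ (2 * k) := by
    intro k
    rw [← hs2, zpow_mul]
    norm_cast
  set f : ℤ → ℝ := fun n => (-1) ^ n * (Q ^ (n * (n + 1)) * s ^ (2 * n + 1)) with hf
  have hfn : Summable fun n => ‖f n‖ := by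
    refine (T2_summable hQ hQ1 hs.ne').congr (fun n => ?_)
    simp only [hf]
    rw [norm_mul, norm_zpow, norm_neg, norm_one, one_zpow, one_mul, Real.norm_eq_abs, abs_of_nonneg (by positivity)]
  have hF := hfn.of_norm.hasSum.mul hfn.of_norm.hasSum (summable_mul_of_summable_norm hfn hfn)
  set F : ℤ × ℤ → ℝ := fun p => f p.1 * f p.2 with hFdef
  -- even part
  set Fe : ℤ × ℤ → ℝ := fun p => if Even (p.1 + p.2) then F p else 0 with hFe
  set Fo : ℤ × ℤ → ℝ := fun p => if Even (p.1 + p.2) then 0 else F p with hFo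
  have he : HasSum Fe (T2 q y * T3 q 1) := by
    have hinj : Function.Injective (fun p : ℤ × ℤ => (p.1 + p.2, p.1 - p.2)) := by
      rintro ⟨a, b⟩ ⟨c, d⟩ h
      simp only [Prod.mk.injEq] at h ⊢
      omega
    rw [← Function.Injective.hasSum_iff hinj]
    · have h1 := (T2_summable hq hq1 hy.ne').hasSum.mul (T3_summable hq hq1 one_ne_zero).hasSum
        (summable_mul_of_summable_norm (T2_summable hq hq1 hy.ne').norm (T3_summable hq hq1 one_ne_zero).norm)
      refine (congrArg (fun u => HasSum u (T2 q y * T3 q 1)) ?_).mpr h1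
      funext p
      obtain ⟨j, l⟩ := p
      simp only [Function.comp_apply, hFe, hFdef, hf]
      rw [if_pos (by rw [show j + l + (j - l) = j + j by ring]; exact ⟨j, rfl⟩)]
      rw [hQz, hQz, hsz, one_zpow, mul_one]
      have e1 : ((-1 : ℝ)) ^ (j + l) * (-1) ^ (j - l) = 1 := by
        rw [← zpow_add₀ (by norm_num), show j + l + (j - l) = 2 * j by ring, zpow_mul]
        norm_num
      have e2 : Q ^ ((j + l) * (j + l + 1)) * Q ^ ((j - l) * (j - l + 1)) =
          Q ^ (2 * (j * (j + 1))) * Q ^ (2 * (l * l)) := by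
        rw [← zpow_add₀ hQ.ne', ← zpow_add₀ hQ.ne']; congr 1; ring
      have e3 : s ^ (2 * (j + l) + 1) * s ^ (2 * (j - l) + 1) = s ^ (2 * (2 * j + 1)) := by
        rw [← zpow_add₀ hs.ne']; congr 1; ring
      calc _ = ((-1 : ℝ) ^ (j + l) * (-1) ^ (j - l)) * (Q ^ ((j + l) * (j + l + 1)) * Q ^ ((j - l) * (j - l + 1))) *
            (s ^ (2 * (j + l) + 1) * s ^ (2 * (j - l) + 1)) := by ring
        _ = _ := by rw [e1, e2, e3]; ring
    · rintro ⟨a, b⟩ hab
      simp only [hFe]
      rw [if_neg]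
      rintro ⟨r, hr⟩
      apply hab
      refine ⟨(r, a - r), ?_⟩
      simp only [Prod.mk.injEq]
      constructor
      · ring
      · linarith
  have ho : HasSum Fo (-(T3 q y * T2 q 1)) := by
    have hinj : Function.Injective (fun p : ℤ × ℤ => (p.1 + p.2, p.1 - p.2 - 1)) := by
      rintro ⟨a, b⟩ ⟨c, d⟩ h
      simp only [Prod.mk.injEq] at h ⊢
      omega
    rw [← Function.Injective.hasSum_iff hinj]
    · have h1 := ((T3_summable hq hq1 hy.ne').hasSum.mul (T2_summable hq hq1 one_ne_zero).hasSum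
        (summable_mul_of_summable_norm (T3_summable hq hq1 hy.ne').norm (T2_summable hq hq1 one_ne_zero).norm)).neg
      refine (congrArg (fun u => HasSum u (-(T3 q y * T2 q 1))) ?_).mpr h1
      funext p
      obtain ⟨j, l⟩ := p
      simp only [Function.comp_apply, hFo, hFdef, hf]
      rw [if_neg (by rw [show j + l + (j - l - 1) = 2 * (j - 1) + 1 by ring]; exact Int.not_even_two_mul_add_one _)]
      rw [hQz, hQz, hsz, one_zpow, mul_one]
      have e1 : ((-1 : ℝ)) ^ (j + l) * (-1) ^ (j - l - 1) = -1 := by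
        rw [← zpow_add₀ (by norm_num), show j + l + (j - l - 1) = 2 * (j - 1) + 1 by ring,
          zpow_add₀ (by norm_num), zpow_mul]
        norm_num
      have e2 : Q ^ ((j + l) * (j + l + 1)) * Q ^ ((j - l - 1) * (j - l - 1 + 1)) =
          Q ^ (2 * (j * j)) * Q ^ (2 * (l * (l + 1))) := by
        rw [← zpow_add₀ hQ.ne', ← zpow_add₀ hQ.ne']; congr 1; ring
      have e3 : s ^ (2 * (j + l) + 1) * s ^ (2 * (j - l - 1) + 1) = s ^ (2 * (2 * j)) := by
        rw [← zpow_add₀ hs.ne']; congr 1; ring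
      calc _ = ((-1 : ℝ) ^ (j + l) * (-1) ^ (j - l - 1)) * (Q ^ ((j + l) * (j + l + 1)) * Q ^ ((j - l - 1) * (j - l - 1 + 1))) *
            (s ^ (2 * (j + l) + 1) * s ^ (2 * (j - l - 1) + 1)) := by ring
        _ = _ := by rw [e1, e2, e3]; ring
    · rintro ⟨a, b⟩ hab
      simp only [hFo]
      by_cases hE : Even (a + b)
      · rw [if_pos hE]
      · exfalso
        obtain ⟨r, hr⟩ := Int.not_even_iff_odd.1 hE
        apply hab
        refine ⟨(r + 1, a - r - 1), ?_⟩
        simp only [Prod.mk.injEq]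
        constructor
        · ring
        · linarith
  have hadd := he.add ho
  have e : (fun p => Fe p + Fo p) = F := by
    funext p
    simp only [hFe, hFo]
    split_ifs <;> simp
  rw [e] at hadd
  refine ⟨∑' n, f n, ?_⟩
  have := hadd.unique hF
  rw [sq]
  linarith

end

end Pool.Agent.helper71.NO
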