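import Mathlib
import Pool.Agent.helper71.NO.KFun
import Pool.Agent.helper71.NO.Theta

set_option autoImplicit false

namespace Pool.Agent.helper71.NO

open Finset

noncomputable section

lemma Ent.conv {a b : ℕ → ℝ} (ha : Ent a) (hb : Ent b) : Ent (conv a b) := by
  intro R hR
  obtain ⟨M, hM⟩ := ha R hR
  have hs := hb.summable hR.le
  refine ⟨M * ∑' k, |b k| * R ^ k, fun i => ?_⟩
  have hM0 : 0 ≤ M := le_trans (by positivity) (hM 0)
  have h1 : |Pool.Agent.helper71.NO.conv a b i| ≤ ∑ j ∈ range (i + 1), |a (i - j)| * |b j| := by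
    unfold Pool.Agent.helper71.NO.conv
    refine (abs_sum_le_sum_abs _ _).trans (le_of_eq (sum_congr rfl fun j _ => abs_mul _ _))
  calc |Pool.Agent.helper71.NO.conv a b i| * R ^ i
      ≤ (∑ j ∈ range (i + 1), |a (i - j)| * |b j|) * R ^ i := by gcongr
    _ = ∑ j ∈ range (i + 1), (|a (i - j)| * R ^ (i - j)) * (|b j| * R ^ j) := by
        rw [sum_mul]
        apply sum_congr rfl
        intro j hj
        have : j ≤ i := by have := mem_range.1 hj; omega
        have e1 : R ^ i = R ^ j * R ^ (i - j) := by rw [← pow_add]; congr 1; omega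
        rw [e1]; ring
    _ ≤ ∑ j ∈ range (i + 1), M * (|b j| * R ^ j) := by
        apply sum_le_sum
        intro j _
        exact mul_le_mul_of_nonneg_right (hM (i - j)) (by positivity)
    _ = M * ∑ j ∈ range (i + 1), |b j| * R ^ j := by rw [mul_sum]
    _ ≤ M * ∑' k, |b k| * R ^ k := by
        apply mul_le_mul_of_nonneg_left _ hM0
        exact hs.sum_le_tsum _ (fun j _ => by positivity)

lemma ev_conv {a b : ℕ → ℝ} (ha : Ent a) (hb : Ent b) (x : ℂ) : ev (conv a b) x = ev a x * ev b x :=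
  (ev_mul ha hb x).tsum_eq

variable {κ q τ β σ : ℝ}

/-- coefficients of `g(qx) A(qx)` -/
def GA (κ q β : ℝ) : ℕ → ℝ := conv (q5 1 (-2 * κ * q) (q ^ 2) 0 0) (fun k => Aco κ q β k * q ^ k)

/-- coefficients of `g(qy) U(y)` -/
def GU (κ q σ : ℝ) : ℕ → ℝ := conv (q5 1 (-2 * κ * q) (q ^ 2) 0 0) (Uco κ q σ)

/-- coefficients of `U(y/q)` -/
def Us (κ q σ : ℝ) : ℕ → ℝ := fun k => Uco κ q σ k * (1 / q) ^ k

/-- Laurent coefficients of `K` -/
def kk (κ q β σ : ℝ) (n : ℤ) : ℝ :=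
  σ * lc (Aco κ q β) (Us κ q σ) n - β * lc (GA κ q β) (GU κ q σ) n

lemma Par.kk_hasSum (P : Par κ q τ β σ) {x : ℂ} (hx : x ≠ 0) :
    HasSum (fun n : ℤ => (kk κ q β σ n : ℂ) * x ^ n) (KC κ q β σ x) := by
  have eA := P.entA
  have eU := P.entU
  have eG := q5_ent 1 (-2 * κ * q) (q ^ 2) 0 0
  have hq : (q : ℂ) ≠ 0 := by exact_mod_cast P.hq.ne'
  have h1 := (lc_hasSum eA (eU.scale (1 / q)) hx).mul_left (σ : ℂ)
  have h2 := (lc_hasSum (eG.conv (eA.scale q)) (eG.conv eU) hx).mul_left (β : ℂ)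
  have h3 := h1.sub h2
  have e : KC κ q β σ x = σ * (ev (Aco κ q β) x * ev (fun k => Uco κ q σ k * (1 / q) ^ k) x⁻¹) -
      β * (ev (conv (q5 1 (-2 * κ * q) (q ^ 2) 0 0) (fun k => Aco κ q β k * q ^ k)) x *
        ev (conv (q5 1 (-2 * κ * q) (q ^ 2) 0 0) (Uco κ q σ)) x⁻¹) := by
    rw [ev_conv eG (eA.scale q), ev_conv eG eU, ev_scale, ev_scale, q5_ev, q5_ev]
    unfold KC gC
    have a1 : (((1 / q : ℝ) : ℂ) * x⁻¹) = 1 / (q * x) := by push_cast; field_simp
    rw [a1, one_div x]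
    push_cast
    field_simp
    ring
  rw [e]
  have e2 : (fun n : ℤ => (kk κ q β σ n : ℂ) * x ^ n) = fun n : ℤ =>
      (σ : ℂ) * ((lc (Aco κ q β) (fun k => Uco κ q σ k * (1 / q) ^ k) n : ℂ) * x ^ n) -
      (β : ℂ) * ((lc (conv (q5 1 (-2 * κ * q) (q ^ 2) 0 0) (fun k => Aco κ q β k * q ^ k))
        (conv (q5 1 (-2 * κ * q) (q ^ 2) 0 0) (Uco κ q σ)) n : ℂ) * x ^ n) := by
    funext n
    unfold kk GA GU Us
    push_cast
    ring
  rw [e2]
  exact h3

/-- the relation between the Laurent coefficients -/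
lemma Par.kk_rel (P : Par κ q τ β σ) (n : ℤ) :
    kk κ q β σ n * q ^ n = 1 / (β * σ) * kk κ q β σ (n + 2) := by
  have key : ∀ x : ℂ, ‖x‖ = 1 → HasSum (fun n : ℤ =>
      (((kk κ q β σ n * q ^ n - 1 / (β * σ) * kk κ q β σ (n + 2) : ℝ)) : ℂ) * x ^ n) 0 := by
    intro x hx1
    have hx : x ≠ 0 := by
      rintro rfl
      simp at hx1
    have hq : (q : ℂ) ≠ 0 := by exact_mod_cast P.hq.ne'
    have h1 := P.kk_hasSum (mul_ne_zero hq hx)
    have h2 := (P.kk_hasSum hx).mul_left ((1 / (β * σ) : ℂ) * (x ^ 2)⁻¹)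
    rw [← (Equiv.addRight (2 : ℤ)).hasSum_iff] at h2
    have h3 := h1.sub h2
    have hK := P.KC_q hx
    have e0 : KC κ q β σ (q * x) - 1 / (β * σ) * (x ^ 2)⁻¹ * KC κ q β σ x = 0 := by
      have : KC κ q β σ (q * x) = (x ^ 2)⁻¹ * (x ^ 2 * KC κ q β σ (q * x)) := by field_simp
      rw [this, hK]
      ring
    rw [e0] at h3
    refine (congrArg (fun u => HasSum u (0 : ℂ)) ?_).mpr h3
    funext n
    simp only [Function.comp_apply, Equiv.coe_addRight]
    rw [mul_zpow, zpow_add₀ hx]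
    have : (x ^ (2 : ℤ)) = x ^ 2 := by norm_cast
    rw [this]
    push_cast
    field_simp
  have h := laurent_unique (k := fun n => (((kk κ q β σ n * q ^ n - 1 / (β * σ) * kk κ q β σ (n + 2) : ℝ)) : ℂ)) key n
  have h' : kk κ q β σ n * q ^ n - 1 / (β * σ) * kk κ q β σ (n + 2) = 0 := by exact_mod_cast h
  linarith

lemma Par.kk_step (P : Par κ q τ β σ) (n : ℤ) :
    kk κ q β σ (n + 2) = (β * σ) * q ^ n * kk κ q β σ n := by
  have h := P.kk_rel n
  have hβ := P.hβ
  have hσ := P.σpos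
  field_simp at h
  linarith

lemma Par.kk_even (P : Par κ q τ β σ) (m : ℤ) :
    kk κ q β σ (2 * m) = kk κ q β σ 0 * (q ^ (m * (m - 1)) * (β * σ) ^ m) := by
  have hβ := P.hβ
  have hσ := P.σpos
  have hq := P.hq
  have step : ∀ m : ℤ, kk κ q β σ (2 * (m + 1)) = (β * σ) * q ^ (2 * m) * kk κ q β σ (2 * m) := by
    intro m
    rw [← P.kk_step]; congr 1; ring
  have estep : ∀ m : ℤ, q ^ ((m + 1) * (m + 1 - 1)) * (β * σ) ^ (m + 1) =
      (β * σ) * q ^ (2 * m) * (q ^ (m * (m - 1)) * (β * σ) ^ m) := by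
    intro m
    rw [zpow_add₀ (by positivity : β * σ ≠ 0), zpow_one, show (m + 1) * (m + 1 - 1) = 2 * m + m * (m - 1) by ring,
      zpow_add₀ hq.ne']
    ring
  induction m using Int.induction_on with
  | zero => simp
  | succ m ih => rw [step, estep, ih]; ring
  | pred m ih =>
    have h1 := step (-(m : ℤ) - 1)
    have h2 := estep (-(m : ℤ) - 1)
    rw [show -(m : ℤ) - 1 + 1 = -(m : ℤ) by ring] at h1 h2
    have hne : (β * σ) * q ^ (2 * (-(m : ℤ) - 1)) ≠ 0 := by positivity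
    apply mul_left_cancel₀ hne
    rw [← h1, ih, h2]
    ring

lemma Par.kk_odd (P : Par κ q τ β σ) (m : ℤ) :
    kk κ q β σ (2 * m + 1) = kk κ q β σ 1 * (q ^ (m * m) * (β * σ) ^ m) := by
  have hβ := P.hβ
  have hσ := P.σpos
  have hq := P.hq
  have step : ∀ m : ℤ, kk κ q β σ (2 * (m + 1) + 1) = (β * σ) * q ^ (2 * m + 1) * kk κ q β σ (2 * m + 1) := by
    intro m
    rw [← P.kk_step]; congr 1; ring
  have estep : ∀ m : ℤ, q ^ ((m + 1) * (m + 1)) * (β * σ) ^ (m + 1) =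
      (β * σ) * q ^ (2 * m + 1) * (q ^ (m * m) * (β * σ) ^ m) := by
    intro m
    rw [zpow_add₀ (by positivity : β * σ ≠ 0), zpow_one, show (m + 1) * (m + 1) = (2 * m + 1) + m * m by ring,
      zpow_add₀ hq.ne' (2 * m + 1)]
    ring
  induction m using Int.induction_on with
  | zero => simp
  | succ m ih => rw [step, estep, ih]; ring
  | pred m ih =>
    have h1 := step (-(m : ℤ) - 1)
    have h2 := estep (-(m : ℤ) - 1)
    rw [show -(m : ℤ) - 1 + 1 = -(m : ℤ) by ring] at h1 h2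
    have hne : (β * σ) * q ^ (2 * (-(m : ℤ) - 1) + 1) ≠ 0 := by positivity
    apply mul_left_cancel₀ hne
    rw [← h1, ih, h2]
    ring

lemma Par.kkR_hasSum (P : Par κ q τ β σ) {x : ℝ} (hx : x ≠ 0) :
    HasSum (fun n : ℤ => kk κ q β σ n * x ^ n) (KR κ q β σ x) := by
  have h := P.kk_hasSum (x := (x : ℂ)) (by exact_mod_cast hx)
  rw [KC_ofReal] at h
  have e : (fun n : ℤ => (kk κ q β σ n : ℂ) * (x : ℂ) ^ n) = fun n : ℤ => ((kk κ q β σ n * x ^ n : ℝ) : ℂ) := by
    funext n; push_cast; rfl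
  rw [e] at h
  exact (Complex.hasSum_ofReal).1 h

/-- the theta form of `K` -/
theorem Par.K_form (P : Par κ q τ β σ) {z : ℝ} (hz : z ≠ 0) (hz2 : z ^ 2 = 1 / (β * σ)) {y : ℝ} (hy : y ≠ 0) :
    KR κ q β σ (z * y) = y * (kk κ q β σ 0 * T2 q y + kk κ q β σ 1 * z * T3 q y) := by
  have hβ := P.hβ
  have hσ := P.σpos
  have hq := P.hq
  have hq1 := P.hq1
  have hK := P.kkR_hasSum (mul_ne_zero hz hy)
  have hzz : ∀ m : ℤ, (β * σ) ^ m * (z * y) ^ (2 * m) = y ^ (2 * m) := by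
    intro m
    rw [zpow_mul, zpow_mul]
    have e1 : ((z * y) ^ (2:ℤ)) = z ^ 2 * y ^ (2:ℤ) := by norm_cast; ring
    rw [e1, ← mul_zpow, hz2]
    congr 1
    field_simp
  set Ke : ℤ → ℝ := fun n => if Even n then kk κ q β σ n * (z * y) ^ n else 0 with hKe
  set Ko : ℤ → ℝ := fun n => if Even n then 0 else kk κ q β σ n * (z * y) ^ n with hKo
  have he : HasSum Ke (y * (kk κ q β σ 0 * T2 q y)) := by
    have hinj : Function.Injective (fun m : ℤ => 2 * (m + 1)) := by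
      intro a b h
      simp only at h
      omega
    rw [← Function.Injective.hasSum_iff hinj]
    · have h1 := (((T2_summable hq hq1 hy).hasSum).mul_left (kk κ q β σ 0)).mul_left y
      refine (congrArg (fun u => HasSum u (y * (kk κ q β σ 0 * T2 q y))) ?_).mpr h1
      funext m
      simp only [Function.comp_apply, hKe]
      rw [if_pos (even_two_mul _), P.kk_even]
      have e2 : (m + 1) * (m + 1 - 1) = m * (m + 1) := by ring
      have e3 : y ^ (2 * (m + 1)) = y * y ^ (2 * m + 1) := by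
        rw [show 2 * (m + 1) = 1 + (2 * m + 1) by ring, zpow_add₀ hy, zpow_one]
      have e4 := hzz (m + 1)
      rw [e2]
      calc kk κ q β σ 0 * (q ^ (m * (m + 1)) * (β * σ) ^ (m + 1)) * (z * y) ^ (2 * (m + 1)) =
          kk κ q β σ 0 * q ^ (m * (m + 1)) * ((β * σ) ^ (m + 1) * (z * y) ^ (2 * (m + 1))) := by ring
        _ = _ := by rw [e4, e3]; ring
    · intro n hn
      simp only [hKe]
      rw [if_neg]
      rintro ⟨r, hr⟩
      apply hn
      exact ⟨r - 1, by simp only; omega⟩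
  have ho : HasSum Ko (y * (kk κ q β σ 1 * z * T3 q y)) := by
    have hinj : Function.Injective (fun m : ℤ => 2 * m + 1) := by
      intro a b h
      simp only at h
      omega
    rw [← Function.Injective.hasSum_iff hinj]
    · have h1 := (((T3_summable hq hq1 hy).hasSum).mul_left (kk κ q β σ 1 * z)).mul_left y
      refine (congrArg (fun u => HasSum u (y * (kk κ q β σ 1 * z * T3 q y))) ?_).mpr h1
      funext m
      simp only [Function.comp_apply, hKo]
      rw [if_neg (Int.not_even_two_mul_add_one _), P.kk_odd, zpow_add₀ (mul_ne_zero hz hy), zpow_one]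
      have e4 := hzz m
      calc kk κ q β σ 1 * (q ^ (m * m) * (β * σ) ^ m) * ((z * y) ^ (2 * m) * (z * y)) =
          kk κ q β σ 1 * q ^ (m * m) * ((β * σ) ^ m * (z * y) ^ (2 * m)) * (z * y) := by ring
        _ = _ := by rw [e4]; ring
    · intro n hn
      simp only [hKo]
      by_cases hE : Even n
      · rw [if_pos hE]
      · exfalso
        obtain ⟨r, hr⟩ := Int.not_even_iff_odd.1 hE
        exact hn ⟨r, hr.symm⟩
  have hadd := he.add ho
  have e : (fun n => Ke n + Ko n) = fun n : ℤ => kk κ q β σ n * (z * y) ^ n := by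
    funext n
    simp only [hKe, hKo]
    split_ifs <;> simp
  rw [e] at hadd
  rw [hK.unique hadd]
  ring

lemma T2_neg (q y : ℝ) : T2 q (-y) = -T2 q y := by
  unfold T2
  rw [← tsum_neg]
  congr 1
  funext m
  rw [Odd.neg_zpow ⟨m, rfl⟩]
  ring

lemma T3_neg (q y : ℝ) : T3 q (-y) = T3 q y := by
  unfold T3
  congr 1
  funext m
  rw [Even.neg_zpow (even_two_mul m)]

/-- positivity transfer -/
theorem Par.K_theta (P : Par κ q τ β σ) {z : ℝ} (hz : 0 < z) (hz2 : z ^ 2 = 1 / (β * σ)) {x : ℝ} (hx : 0 < x) :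
    ∃ a b c : ℝ, 0 < a ∧ 0 < b ∧ 0 ≤ c ∧
      a * KR κ q β σ x = b * KR κ q β σ z + c * (KR κ q β σ z + KR κ q β σ (-z)) := by
  have hq := P.hq
  have hq1 := P.hq1
  set y := x / z with hy
  have hy0 : 0 < y := by positivity
  have hxy : x = z * y := by rw [hy]; field_simp
  obtain ⟨S, hS⟩ := theta_ineq hq hq1 hy0
  have h1 := P.K_form hz.ne' hz2 hy0.ne'
  have h2 := P.K_form hz.ne' hz2 one_ne_zero
  have h3 := P.K_form hz.ne' hz2 (y := -1) (by norm_num)
  rw [T2_neg q 1, T3_neg] at h3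
  rw [mul_one, one_mul] at h2
  rw [mul_neg_one] at h3
  rw [← hxy] at h1
  have p2 := T2_pos hq hq1 one_pos
  have p3 := T3_pos hq hq1 one_pos
  have p3y := T3_pos hq hq1 hy0
  refine ⟨T3 q 1, y * T3 q y, y * (S ^ 2 / (2 * T2 q 1)), p3, by positivity, by positivity, ?_⟩
  have h4 : KR κ q β σ z + KR κ q β σ (-z) = 2 * T2 q 1 * kk κ q β σ 0 := by
    rw [h2, h3]; ring
  rw [h4]
  have h5 : y * (S ^ 2 / (2 * T2 q 1)) * (2 * T2 q 1 * kk κ q β σ 0) = y * S ^ 2 * kk κ q β σ 0 := by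
    field_simp
  rw [h5, h1, h2, ← hS]
  ring

end

end Pool.Agent.helper71.NO
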