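import Mathlib
import Pool.Agent.helper71.NO.KTheta

set_option autoImplicit false

namespace Pool.Agent.helper71.NO

open Finset Filter Topology

noncomputable section

/-- comparison of a positive solution with a positive supersolution -/
lemma no_cross {ρ r w : ℕ → ℝ} {T c : ℝ} (hρ : ∀ n, 0 < ρ n) (hr : ∀ n, 0 < r n) (hw : ∀ n, 0 < w n)
    (h1 : ∀ n, ρ (n + 1) = T - w n / ρ n) (h2 : ∀ n, r (n + 1) ≤ T - w n / r n) (hc : 0 < c)
    (hP : ∀ n, c ≤ ∏ j ∈ range n, w j / ρ j ^ 2) : ρ 0 ≤ r 0 := by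
  by_contra hcon
  push Not at hcon
  set M := max T (ρ 0) with hM
  have hρM : ∀ n, ρ n ≤ M := by
    intro n
    rcases n with _ | n
    · exact le_max_right _ _
    · rw [h1]
      have := div_pos (hw n) (hρ n)
      have := le_max_left T (ρ 0)
      linarith
  have hMpos : 0 < M := (hρ 0).trans_le (hρM 0)
  set d0 := ρ 0 - r 0 with hd0
  have hd0p : 0 < d0 := by linarith
  -- basic step
  have step : ∀ n, r n < ρ n → w n * (ρ n - r n) / (r n * ρ n) ≤ ρ (n + 1) - r (n + 1) := by
    intro n _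
    have e : w n * (ρ n - r n) / (r n * ρ n) = w n / r n - w n / ρ n := by
      have := hρ n; have := hr n
      field_simp
    rw [e, h1]
    have := h2 n
    linarith
  have lt1 : ∀ n, r n < ρ n := by
    intro n
    induction n with
    | zero => exact hcon
    | succ n ih =>
      have h3 := step n ih
      have h4 : 0 < w n * (ρ n - r n) / (r n * ρ n) := by
        have := hρ n; have := hr n; have := hw n
        have : 0 < ρ n - r n := by linarith
        positivity
      linarith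
  have low : ∀ n, (∏ j ∈ range n, w j / ρ j ^ 2) * d0 ≤ ρ n - r n := by
    intro n
    induction n with
    | zero => simp [hd0]
    | succ n ih =>
      have h3 := step n (lt1 n)
      rw [prod_range_succ]
      have hρn := hρ n
      have hrn := hr n
      have hwn := hw n
      have h5 : w n / ρ n ^ 2 * (ρ n - r n) ≤ w n * (ρ n - r n) / (r n * ρ n) := by
        rw [div_mul_eq_mul_div]
        apply div_le_div_of_nonneg_left _ (by positivity)
        · have := lt1 n
          nlinarith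
        · have : 0 < ρ n - r n := by have := lt1 n; linarith
          positivity
      calc (∏ j ∈ range n, w j / ρ j ^ 2) * (w n / ρ n ^ 2) * d0
          = w n / ρ n ^ 2 * ((∏ j ∈ range n, w j / ρ j ^ 2) * d0) := by ring
        _ ≤ w n / ρ n ^ 2 * (ρ n - r n) := by
            apply mul_le_mul_of_nonneg_left ih (by positivity)
        _ ≤ _ := h5.trans h3
  set δ := c * d0 with hδ
  have hδ0 : 0 < δ := by positivity
  have hdn : ∀ n, δ ≤ ρ n - r n := fun n =>
    le_trans (mul_le_mul_of_nonneg_right (hP n) hd0p.le) (low n)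
  have low2 : ∀ n, (∏ j ∈ range n, w j / ρ j ^ 2) * (1 + δ / M) ^ n * d0 ≤ ρ n - r n := by
    intro n
    induction n with
    | zero => simp [hd0]
    | succ n ih =>
      have h3 := step n (lt1 n)
      rw [prod_range_succ, pow_succ]
      have hρn := hρ n
      have hrn := hr n
      have hwn := hw n
      have hl := lt1 n
      have hdd := hdn n
      have h6 : r n * (1 + δ / M) ≤ ρ n := by
        have : r n * (δ / M) ≤ δ := by
          rw [← mul_div_assoc, div_le_iff₀ hMpos, mul_comm]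
          have := hρM n
          exact mul_le_mul_of_nonneg_left (by linarith) hδ0.le
        linarith
      have h5 : w n / ρ n ^ 2 * (1 + δ / M) * (ρ n - r n) ≤ w n * (ρ n - r n) / (r n * ρ n) := by
        rw [le_div_iff₀ (by positivity)]
        have e : w n / ρ n ^ 2 * (1 + δ / M) * (ρ n - r n) * (r n * ρ n) =
            (w n * (ρ n - r n)) * ((r n * (1 + δ / M)) / ρ n) := by
          field_simp
        rw [e]
        have h7 : (r n * (1 + δ / M)) / ρ n ≤ 1 := by rw [div_le_one hρn]; exact h6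
        have h8 : 0 ≤ w n * (ρ n - r n) := mul_nonneg hwn.le (by linarith)
        exact mul_le_of_le_one_right h8 h7
      calc (∏ j ∈ range n, w j / ρ j ^ 2) * (w n / ρ n ^ 2) * ((1 + δ / M) ^ n * (1 + δ / M)) * d0
          = w n / ρ n ^ 2 * (1 + δ / M) * ((∏ j ∈ range n, w j / ρ j ^ 2) * (1 + δ / M) ^ n * d0) := by ring
        _ ≤ w n / ρ n ^ 2 * (1 + δ / M) * (ρ n - r n) := by
            apply mul_le_mul_of_nonneg_left ih (by positivity)
        _ ≤ _ := h5.trans h3
  obtain ⟨n, hn⟩ := pow_unbounded_of_one_lt (M / (c * d0)) (show 1 < 1 + δ / M by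
    have : 0 < δ / M := by positivity
    linarith)
  have h7 : c * (1 + δ / M) ^ n * d0 ≤ M := by
    calc c * (1 + δ / M) ^ n * d0 ≤ (∏ j ∈ range n, w j / ρ j ^ 2) * (1 + δ / M) ^ n * d0 := by
          have h8 : 0 < (1 + δ / M) ^ n := by positivity
          have := hP n
          gcongr
      _ ≤ ρ n - r n := low2 n
      _ ≤ M := by have := hρM n; have := hr n; linarith
  rw [div_lt_iff₀ (by positivity)] at hn
  nlinarith

variable {κ q τ β σ : ℝ}

/-- real functional equation of `A` -/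
lemma Par.feAR (P : Par κ q τ β σ) (x : ℝ) : evr (Aco κ q β) x =
    gR κ x * ((1 + β ^ 2) * evr (Aco κ q β) (q * x) - β ^ 2 * gR κ (q * (q * x)) * evr (Aco κ q β) (q * (q * x))) := by
  have h := P.feA (x : ℂ)
  have a4 : (q : ℂ) ^ 2 * (x : ℂ) = ((q * (q * x) : ℝ) : ℂ) := by push_cast; ring
  have a5 : (q : ℂ) * (x : ℂ) = ((q * x : ℝ) : ℂ) := by push_cast; ring
  rw [a4, a5, ev_ofReal, ev_ofReal, ev_ofReal, gC_ofReal, gC_ofReal] at h
  exact_mod_cast h

/-- real functional equation of `U` -/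
lemma Par.feUR (P : Par κ q τ β σ) {x : ℝ} (hx : x ≠ 0) :
    σ * evr (Uco κ q σ) (1 / (q * (q * x))) =
      2 * τ * gR κ (1 / x) * evr (Uco κ q σ) (1 / (q * x)) -
        q ^ 2 / σ * gR κ (1 / (q * x)) * gR κ (q / x) * evr (Uco κ q σ) (1 / x) := by
  have hq := P.hq
  have hσ := P.σpos
  have h := P.feU ((1 / (q * (q * x)) : ℝ) : ℂ)
  have a1 : (q : ℂ) ^ 2 * ((1 / (q * (q * x)) : ℝ) : ℂ) = ((1 / x : ℝ) : ℂ) := by
    rw [← Complex.ofReal_pow, ← Complex.ofReal_mul]; congr 1; field_simp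
  have a2 : (q : ℂ) * ((1 / (q * (q * x)) : ℝ) : ℂ) = ((1 / (q * x) : ℝ) : ℂ) := by
    rw [← Complex.ofReal_mul]; congr 1; field_simp
  have a3 : (q : ℂ) ^ 3 * ((1 / (q * (q * x)) : ℝ) : ℂ) = ((q / x : ℝ) : ℂ) := by
    rw [← Complex.ofReal_pow, ← Complex.ofReal_mul]; congr 1; field_simp
  rw [a1, a2, a3, ev_ofReal, ev_ofReal, ev_ofReal, gC_ofReal, gC_ofReal, gC_ofReal] at h
  have h' : evr (Uco κ q σ) (1 / (q * (q * x))) =
      (1 + q ^ 2 / σ ^ 2) * gR κ (1 / x) * evr (Uco κ q σ) (1 / (q * x)) -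
      q ^ 2 / σ ^ 2 * gR κ (1 / (q * x)) * gR κ (q / x) * evr (Uco κ q σ) (1 / x) := by exact_mod_cast h
  rw [h']
  have k3 : σ * (1 + q ^ 2 / σ ^ 2) = 2 * τ := by
    field_simp
    linear_combination P.h2
  rw [← k3]
  field_simp

lemma evA_zero (κ q β : ℝ) : evr (Aco κ q β) 0 = 1 := by
  rw [evr_zero]; exact cf_zero _ _ _ _

lemma evU_zero (κ q σ : ℝ) : evr (Uco κ q σ) 0 = 1 := by
  rw [evr_zero]; exact cf_zero _ _ _ _

lemma gR_inv (κ : ℝ) {x : ℝ} (hx : x ≠ 0) : gR κ (1 / x) = gR κ x / x ^ 2 := by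
  unfold gR; field_simp; ring

lemma gR_zero (κ : ℝ) : gR κ 0 = 1 := by unfold gR; simp

lemma gR_cont (κ : ℝ) : Continuous (gR κ) := by unfold gR; fun_prop

/-- products of `g` along an orbit tending to zero are bounded -/
lemma gprod_bound (κ : ℝ) (hκ : κ ^ 2 < 1) {q : ℝ} (hq : 0 < q) (hq1 : q < 1) {Y : ℝ} (hY : 0 < Y) :
    ∃ C : ℝ, 0 < C ∧ ∀ n, ∏ j ∈ range n, gR κ (Y * q ^ j) ≤ C := by
  set L := (2 * |κ| + Y) * Y with hL
  have hL0 : 0 ≤ L := by positivity
  refine ⟨Real.exp (L * (1 / (1 - q))), Real.exp_pos _, fun n => ?_⟩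
  have h1 : ∏ j ∈ range n, gR κ (Y * q ^ j) ≤ ∏ j ∈ range n, Real.exp (L * q ^ j) := by
    apply Finset.prod_le_prod
    · intro j _
      exact (gR_pos hκ _).le
    · intro j _
      have h2 := Real.add_one_le_exp (L * q ^ j)
      refine le_trans ?_ h2
      unfold gR
      have h3 : q ^ j ≤ 1 := pow_le_one₀ hq.le hq1.le
      have h4 : 0 < q ^ j := pow_pos hq j
      have h5 : -κ ≤ |κ| := neg_le_abs κ
      have h6 : -2 * κ * (Y * q ^ j) ≤ 2 * |κ| * (Y * q ^ j) := by
        have : 0 < Y * q ^ j := by positivity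
        nlinarith
      have h7 : (Y * q ^ j) ^ 2 ≤ Y * Y * q ^ j := by
        have : q ^ j * q ^ j ≤ q ^ j := by nlinarith
        have h9 : 0 < Y * Y := by positivity
        calc (Y * q ^ j) ^ 2 = Y * Y * (q ^ j * q ^ j) := by ring
          _ ≤ Y * Y * q ^ j := mul_le_mul_of_nonneg_left this h9.le
      rw [hL]
      nlinarith
  refine h1.trans ?_
  rw [← Real.exp_sum, ← mul_sum]
  apply Real.exp_le_exp.2
  apply mul_le_mul_of_nonneg_left _ hL0
  have h8 := (summable_geometric_of_lt_one hq.le hq1).sum_le_tsum (range n) (fun j _ => by positivity)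
  rw [tsum_geometric_of_lt_one hq.le hq1, ← one_div] at h8
  exact h8

end

end Pool.Agent.helper71.NO
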