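import Mathlib
import Pool.Agent.helper71.NO.Pos

set_option autoImplicit false

namespace Pool.Agent.helper71.NO

open Finset Filter Topology

noncomputable section

variable {κ q τ β σ : ℝ}

/-- a set invariant under `x ↦ q x` and its inverse -/
def Inv (q : ℝ) (O : Set ℝ) : Prop := ∀ x ∈ O, 0 < x ∧ q * x ∈ O ∧ x / q ∈ O

/-- a positive supersolution on `O` -/
def Sup (κ q τ : ℝ) (O : Set ℝ) (r : ℝ → ℝ) : Prop :=
  ∀ x ∈ O, 0 < r x ∧ r (q * x) + gR κ (q * x) / gR κ x / r x ≤ 2 * τ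

lemma Inv.mul_pow {O : Set ℝ} (hO : Inv q O) {x : ℝ} (hx : x ∈ O) (n : ℕ) : x * q ^ n ∈ O := by
  induction n with
  | zero => simpa using hx
  | succ n ih =>
    have := (hO _ ih).2.1
    rw [pow_succ]
    convert this using 1
    ring

lemma Inv.div_pow {O : Set ℝ} (hO : Inv q O) {x : ℝ} (hx : x ∈ O) (n : ℕ) : x / q ^ n ∈ O := by
  induction n with
  | zero => simpa using hx
  | succ n ih =>
    have := (hO _ ih).2.2
    rw [pow_succ, ← div_div]
    exact this

/-- the `A` predicate -/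
def PA (κ q β : ℝ) (r : ℝ → ℝ) (x : ℝ) : Prop :=
  0 < evr (Aco κ q β) x ∧ β * gR κ (q * x) * evr (Aco κ q β) (q * x) ≤ r x * evr (Aco κ q β) x

lemma Par.PA_step (P : Par κ q τ β σ) {O : Set ℝ} {r : ℝ → ℝ} (hO : Inv q O) (hr : Sup κ q τ O r)
    {x : ℝ} (hx : x ∈ O) (h : PA κ q β r (q * x)) : PA κ q β r x := by
  obtain ⟨ha, hb⟩ := h
  have hx' := hO x hx
  have hβ := P.hβ
  have g0 := gR_pos P.hκ x
  have g1 := gR_pos P.hκ (q * x)
  obtain ⟨r0, r1⟩ := hr x hx
  have fe := P.feAR x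
  unfold PA
  generalize evr (Aco κ q β) x = a0 at *
  generalize evr (Aco κ q β) (q * x) = a1 at *
  generalize evr (Aco κ q β) (q * (q * x)) = a2 at *
  generalize gR κ x = G0 at *
  generalize gR κ (q * x) = G1 at *
  generalize gR κ (q * (q * x)) = G2 at *
  generalize r (q * x) = r1' at *
  generalize r x = r0' at *
  have h1 : β * (G1 * a1) ≤ r0' * a0 := by
    have h2 : G0 * ((1 + β ^ 2) * a1 - β * (r1' * a1)) ≤ a0 := by
      rw [fe]
      apply mul_le_mul_of_nonneg_left _ g0.le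
      have := mul_le_mul_of_nonneg_left hb hβ.le
      nlinarith
    rw [P.h1] at h2
    have h3 : G1 / G0 / r0' ≤ 2 * τ - r1' := by linarith
    have h4 : β * (G1 * a1) ≤ r0' * (G0 * (2 * τ * β * a1 - β * (r1' * a1))) := by
      have h5 : G1 ≤ (2 * τ - r1') * (r0' * G0) := by
        rw [div_div, div_le_iff₀ (by positivity)] at h3
        linarith
      have h6 := mul_le_mul_of_nonneg_left h5 (by positivity : 0 ≤ β * a1)
      nlinarith
    exact h4.trans (mul_le_mul_of_nonneg_left h2 r0.le)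
  refine ⟨?_, by rw [mul_assoc]; exact h1⟩
  have h7 : 0 < β * (G1 * a1) := by positivity
  have h8 : 0 < r0' * a0 := h7.trans_le h1
  exact (mul_pos_iff_of_pos_left r0).1 h8

/-- positivity near zero -/
lemma Par.near0 (P : Par κ q τ β σ) : ∃ δ : ℝ, 0 < δ ∧ ∀ x, 0 ≤ x → x ≤ δ → 0 < evr (Aco κ q β) x := by
  have h1 : Tendsto (evr (Aco κ q β)) (𝓝 0) (𝓝 (evr (Aco κ q β) 0)) := P.entA.continuous.tendsto 0
  rw [evA_zero] at h1
  have h2 := h1.eventually (lt_mem_nhds (by norm_num : (0:ℝ) < 1))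
  obtain ⟨ε, hε, h3⟩ := Metric.eventually_nhds_iff.1 h2
  refine ⟨ε / 2, by positivity, fun x hx0 hx => h3 ?_⟩
  rw [Real.dist_eq, sub_zero, abs_of_nonneg hx0]
  linarith

lemma exists_pow_small {q : ℝ} (hq : 0 < q) (hq1 : q < 1) {x δ : ℝ} (hx : 0 < x) (hδ : 0 < δ) :
    ∃ N : ℕ, x * q ^ N ≤ δ := by
  obtain ⟨N, hN⟩ := exists_pow_lt_of_lt_one (show 0 < δ / x by positivity) hq1
  refine ⟨N, ?_⟩
  rw [lt_div_iff₀ hx] at hN
  linarith

/-- base point for the `A` predicate -/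
lemma Par.PA_base (P : Par κ q τ β σ) {O : Set ℝ} {r : ℝ → ℝ} (hO : Inv q O) (hr : Sup κ q τ O r)
    {X : ℝ} (hX : X ∈ O) (hpos : ∀ x, 0 ≤ x → x ≤ X → 0 < evr (Aco κ q β) x) : PA κ q β r X := by
  have hX0 := (hO X hX).1
  have hβ := P.hβ
  have hq := P.hq
  have hq1 := P.hq1
  set A := evr (Aco κ q β) with hA
  have hle : ∀ n : ℕ, X * q ^ n ≤ X := fun n => by
    have : q ^ n ≤ 1 := pow_le_one₀ hq.le hq1.le
    nlinarith
  have hXn : ∀ n : ℕ, 0 < X * q ^ n := fun n => by positivity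
  have hAn : ∀ n : ℕ, 0 < A (X * q ^ n) := fun n => hpos _ (hXn n).le (hle n)
  have hgn : ∀ n : ℕ, 0 < gR κ (X * q ^ n) := fun n => gR_pos P.hκ _
  have hqs : ∀ n : ℕ, q * (X * q ^ n) = X * q ^ (n + 1) := fun n => by rw [pow_succ]; ring
  obtain ⟨M, hM⟩ : ∃ M : ℝ, ∀ x ∈ Set.Icc 0 X, ‖A x‖ ≤ M :=
    isCompact_Icc.exists_bound_of_continuousOn P.entA.continuous.continuousOn
  obtain ⟨C1, hC1, hC1'⟩ := gprod_bound κ P.hκ hq hq1 hX0
  obtain ⟨C2, hC2, hC2'⟩ := gprod_bound κ P.hκ hq hq1 (Y := X * q) (by positivity)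
  have hAM : ∀ n : ℕ, A (X * q ^ n) ≤ M := fun n =>
    (le_abs_self _).trans (hM _ ⟨(hXn n).le, hle n⟩)
  have hM0 : 0 < M := (hAn 0).trans_le (hAM 0)
  have key := no_cross (ρ := fun n => β * gR κ (X * q ^ (n + 1)) * A (X * q ^ (n + 1)) / A (X * q ^ n))
    (r := fun n => r (X * q ^ n)) (w := fun n => gR κ (X * q ^ (n + 1)) / gR κ (X * q ^ n)) (T := 2 * τ)
    (c := A (X * q ^ 0) ^ 2 / (M ^ 2 * C1 * C2))
    (fun n => by have := hAn n; have := hAn (n + 1); have := hgn (n + 1); positivity)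
    (fun n => (hr _ (hO.mul_pow hX n)).1)
    (fun n => div_pos (hgn _) (hgn _))
    (by
      intro n
      have fe := P.feAR (X * q ^ n)
      rw [hqs, hqs, ← hA] at fe
      have a0 := hAn n
      have a1 := hAn (n + 1)
      have a2 := hAn (n + 2)
      have g0 := hgn n
      have g1 := hgn (n + 1)
      have g2 := hgn (n + 2)
      beta_reduce
      generalize A (X * q ^ n) = a0' at *
      generalize A (X * q ^ (n + 1)) = a1' at *
      have e12 : n + 1 + 1 = n + 2 := rfl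
      rw [e12] at *
      generalize A (X * q ^ (n + 2)) = a2' at *
      generalize gR κ (X * q ^ n) = G0 at *
      generalize gR κ (X * q ^ (n + 1)) = G1 at *
      generalize gR κ (X * q ^ (n + 2)) = G2 at *
      rw [P.h1] at fe
      field_simp
      rw [fe]
      ring)
    (by
      intro n
      have h1 := (hr _ (hO.mul_pow hX n)).2
      rw [hqs] at h1
      linarith)
    (by have := hAn 0; positivity)
    (by
      intro n
      have hform : ∀ n : ℕ, ∏ j ∈ range n, (gR κ (X * q ^ (j + 1)) / gR κ (X * q ^ j)) /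
          (β * gR κ (X * q ^ (j + 1)) * A (X * q ^ (j + 1)) / A (X * q ^ j)) ^ 2 =
          A (X * q ^ 0) ^ 2 / (A (X * q ^ n) ^ 2 * (β ^ 2) ^ n * (∏ j ∈ range n, gR κ (X * q ^ j)) *
            (∏ j ∈ range n, gR κ (X * q * q ^ j))) := by
        intro n
        induction n with
        | zero =>
          simp only [prod_range_zero, pow_zero, mul_one]
          have := hAn 0
          rw [pow_zero, mul_one] at this
          rw [div_self (by positivity)]
        | succ n ih =>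
          rw [prod_range_succ, ih, prod_range_succ, prod_range_succ]
          have e3 : X * q * q ^ n = X * q ^ (n + 1) := by rw [pow_succ]; ring
          rw [e3]
          have a1 := hAn (n + 1)
          have a0 := hAn n
          have g0 := hgn n
          have g1 := hgn (n + 1)
          have p1 : 0 < ∏ j ∈ range n, gR κ (X * q ^ j) := prod_pos fun j _ => gR_pos P.hκ _
          have p2 : 0 < ∏ j ∈ range n, gR κ (X * q * q ^ j) := prod_pos fun j _ => gR_pos P.hκ _
          rw [pow_succ (β ^ 2)]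
          field_simp
      rw [hform]
      have a0 := hAn n
      have p1 : 0 < ∏ j ∈ range n, gR κ (X * q ^ j) := prod_pos fun j _ => gR_pos P.hκ _
      have p2 : 0 < ∏ j ∈ range n, gR κ (X * q * q ^ j) := prod_pos fun j _ => gR_pos P.hκ _
      apply div_le_div_of_nonneg_left (by positivity) (by positivity)
      have b1 : A (X * q ^ n) ^ 2 ≤ M ^ 2 := pow_le_pow_left₀ a0.le (hAM n) 2
      have b2 : (β ^ 2) ^ n ≤ 1 := pow_le_one₀ (by positivity) P.B1
      have b3 := hC1' n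
      have b4 := hC2' n
      calc A (X * q ^ n) ^ 2 * (β ^ 2) ^ n * (∏ j ∈ range n, gR κ (X * q ^ j)) *
            (∏ j ∈ range n, gR κ (X * q * q ^ j)) ≤ M ^ 2 * 1 * C1 * C2 := by gcongr
        _ = M ^ 2 * C1 * C2 := by ring)
  simp only [pow_zero, mul_one, zero_add, pow_one] at key
  have hAX := hpos X hX0.le le_rfl
  refine ⟨hAX, ?_⟩
  rw [div_le_iff₀ hAX, mul_comm X q] at key
  exact key

/-- the `A` predicate holds on `O` -/
theorem Par.PA_all (P : Par κ q τ β σ) {O : Set ℝ} {r : ℝ → ℝ} (hO : Inv q O) (hr : Sup κ q τ O r)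
    {x : ℝ} (hx : x ∈ O) : PA κ q β r x := by
  obtain ⟨δ, hδ, hnear⟩ := P.near0
  obtain ⟨N, hN⟩ := exists_pow_small P.hq P.hq1 (hO x hx).1 hδ
  have base : PA κ q β r (x * q ^ N) :=
    P.PA_base hO hr (hO.mul_pow hx N) (fun y hy0 hy => hnear y hy0 (hy.trans hN))
  have down : ∀ n : ℕ, n ≤ N → PA κ q β r (x * q ^ (N - n)) := by
    intro n
    induction n with
    | zero => intro _; simpa using base
    | succ n ih =>
      intro hn
      have h1 := ih (by omega)
      apply P.PA_step hO hr (hO.mul_pow hx _)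
      have e : q * (x * q ^ (N - (n + 1))) = x * q ^ (N - n) := by
        rw [show N - n = N - (n + 1) + 1 by omega, pow_succ]; ring
      rw [e]
      exact h1
  have := down N le_rfl
  simpa using this

/-- the `U` predicate -/
def PU (κ q σ : ℝ) (r : ℝ → ℝ) (x : ℝ) : Prop :=
  0 < evr (Uco κ q σ) (1 / x) ∧ r x * gR κ (q / x) * evr (Uco κ q σ) (1 / x) ≤ σ * evr (Uco κ q σ) (1 / (q * x))

lemma Par.PU_step (P : Par κ q τ β σ) {O : Set ℝ} {r : ℝ → ℝ} (hO : Inv q O) (hr : Sup κ q τ O r)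
    {x : ℝ} (hx : x ∈ O) (h : PU κ q σ r x) : PU κ q σ r (q * x) := by
  obtain ⟨ha, hb⟩ := h
  have hx' := hO x hx
  have hx0 := hx'.1
  have hσ := P.σpos
  have hq := P.hq
  have g0 := gR_pos P.hκ x
  have g1 := gR_pos P.hκ (q * x)
  have h0 := gR_pos P.hκ (q / x)
  obtain ⟨r0, r1⟩ := hr x hx
  have fe := P.feUR hx0.ne'
  have i0 := gR_inv κ hx0.ne'
  have i1 := gR_inv κ (x := q * x) (by positivity)
  have e3 : q / (q * x) = 1 / x := by field_simp
  unfold PU
  rw [e3]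
  rw [i0, i1] at fe
  rw [i0]
  generalize evr (Uco κ q σ) (1 / x) = u0 at *
  generalize evr (Uco κ q σ) (1 / (q * x)) = u1 at *
  generalize evr (Uco κ q σ) (1 / (q * (q * x))) = u2 at *
  generalize gR κ x = G0 at *
  generalize gR κ (q * x) = G1 at *
  generalize gR κ (q / x) = H0 at *
  generalize r (q * x) = r1' at *
  generalize r x = r0' at *
  have hu1 : 0 < u1 := by
    have : 0 < r0' * H0 * u0 := by positivity
    have h2 : 0 < σ * u1 := this.trans_le hb
    exact (mul_pos_iff_of_pos_left hσ).1 h2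
  refine ⟨hu1, ?_⟩
  rw [fe]
  have e1 : 2 * τ * (G0 / x ^ 2) * u1 - q ^ 2 / σ * (G1 / (q * x) ^ 2) * H0 * u0 =
      (2 * τ * G0 * u1 - G1 / σ * (H0 * u0)) / x ^ 2 := by
    field_simp
  have e2 : r1' * (G0 / x ^ 2) * u1 = (r1' * G0 * u1) / x ^ 2 := by ring
  rw [e1, e2]
  apply div_le_div_of_nonneg_right _ (by positivity)
  have h3 : G1 / σ * (H0 * u0) ≤ G1 / r0' * u1 := by
    rw [div_mul_eq_mul_div, div_mul_eq_mul_div, div_le_div_iff₀ hσ r0]
    nlinarith
  have h4 : r1' * G0 * u1 ≤ (2 * τ - G1 / G0 / r0') * G0 * u1 := by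
    have : r1' ≤ 2 * τ - G1 / G0 / r0' := by linarith
    gcongr
  have h5 : (2 * τ - G1 / G0 / r0') * G0 * u1 = 2 * τ * G0 * u1 - G1 / r0' * u1 := by
    field_simp
  linarith

/-- control near infinity -/
lemma Par.nearInf (P : Par κ q τ β σ) : ∃ X0 : ℝ, 0 < X0 ∧ ∀ x, X0 ≤ x → 0 < evr (Uco κ q σ) (1 / x) ∧
    0 < evr (Uco κ q σ) (1 / (q * x)) ∧
    gR κ (q * x) * (gR κ (q / x) * evr (Uco κ q σ) (1 / x)) ^ 2 ≤
      gR κ x * (σ * evr (Uco κ q σ) (1 / (q * x))) ^ 2 := by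
  have hq := P.hq
  have hσ := P.hσ
  have hσ0 := P.σpos
  have cU : Continuous (evr (Uco κ q σ)) := P.entU.continuous
  have cg := gR_cont κ
  have h1 : Tendsto (fun v => evr (Uco κ q σ) v) (𝓝 0) (𝓝 1) := by
    have := cU.tendsto 0
    rwa [evU_zero] at this
  have h2 : Tendsto (fun v => evr (Uco κ q σ) (v / q)) (𝓝 0) (𝓝 1) := by
    have h : Continuous fun v : ℝ => evr (Uco κ q σ) (v / q) := cU.comp (continuous_id.div_const q)
    have := h.tendsto 0
    rwa [zero_div, evU_zero] at this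
  have h3 : Tendsto (fun v => gR κ v * (σ * evr (Uco κ q σ) (v / q)) ^ 2 -
      q ^ 2 * gR κ (v / q) * (gR κ (q * v) * evr (Uco κ q σ) v) ^ 2) (𝓝 0) (𝓝 (σ ^ 2 - q ^ 2)) := by
    have h : Continuous fun v : ℝ => gR κ v * (σ * evr (Uco κ q σ) (v / q)) ^ 2 -
      q ^ 2 * gR κ (v / q) * (gR κ (q * v) * evr (Uco κ q σ) v) ^ 2 := by
      have c1 : Continuous fun v : ℝ => evr (Uco κ q σ) (v / q) := cU.comp (continuous_id.div_const q)
      have c2 : Continuous fun v : ℝ => gR κ (v / q) := cg.comp (continuous_id.div_const q)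
      have c3 : Continuous fun v : ℝ => gR κ (q * v) := cg.comp (continuous_const.mul continuous_id)
      fun_prop
    have := h.tendsto 0
    simp only [zero_div, mul_zero, evU_zero, gR_zero] at this
    convert this using 2
    ring
  have e1 := h1.eventually (lt_mem_nhds (by norm_num : (0:ℝ) < 1))
  have e2 := h2.eventually (lt_mem_nhds (by norm_num : (0:ℝ) < 1))
  have e3 := h3.eventually (lt_mem_nhds (show (0:ℝ) < σ ^ 2 - q ^ 2 by nlinarith))
  obtain ⟨ε, hε, h4⟩ := Metric.eventually_nhds_iff.1 (e1.and (e2.and e3))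
  refine ⟨2 / ε, by positivity, fun x hx => ?_⟩
  have hx0 : 0 < x := lt_of_lt_of_le (by positivity) hx
  have h5 : dist (1 / x) 0 < ε := by
    rw [Real.dist_eq, sub_zero, abs_of_pos (by positivity), div_lt_iff₀ hx0]
    rw [div_le_iff₀ hε] at hx
    nlinarith
  obtain ⟨k1, k2, k3⟩ := h4 h5
  have a1 : 1 / x / q = 1 / (q * x) := by field_simp
  have a2 : q * (1 / x) = q / x := by ring
  rw [a1] at k2 k3
  rw [a2] at k3
  refine ⟨k1, k2, ?_⟩
  rw [gR_inv κ hx0.ne', gR_inv κ (x := q * x) (by positivity)] at k3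
  have e4 : gR κ x / x ^ 2 * (σ * evr (Uco κ q σ) (1 / (q * x))) ^ 2 -
      q ^ 2 * (gR κ (q * x) / (q * x) ^ 2) * (gR κ (q / x) * evr (Uco κ q σ) (1 / x)) ^ 2 =
      (gR κ x * (σ * evr (Uco κ q σ) (1 / (q * x))) ^ 2 -
      gR κ (q * x) * (gR κ (q / x) * evr (Uco κ q σ) (1 / x)) ^ 2) / x ^ 2 := by
    field_simp
  rw [e4] at k3
  have h6 : 0 < x ^ 2 := by positivity
  have := (div_pos_iff_of_pos_right h6).1 k3
  linarith

end

end Pool.Agent.helper71.NO
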