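import Mathlib
import Pool.Agent.helper71.NO.C1

set_option autoImplicit false

namespace Pool.Agent.helper71.NO

open Finset Filter Topology

noncomputable section

variable {κ q τ β σ : ℝ}

lemma Par.PU_base (P : Par κ q τ β σ) {O : Set ℝ} {r : ℝ → ℝ} (hO : Inv q O) (hr : Sup κ q τ O r)
    {X : ℝ} (hX : X ∈ O) (hpos : ∀ x, X ≤ x → 0 < evr (Uco κ q σ) (1 / x) ∧
    0 < evr (Uco κ q σ) (1 / (q * x)) ∧
    gR κ (q * x) * (gR κ (q / x) * evr (Uco κ q σ) (1 / x)) ^ 2 ≤
      gR κ x * (σ * evr (Uco κ q σ) (1 / (q * x))) ^ 2) : PU κ q σ r X := by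
  have hX0 := (hO X hX).1
  have hβ := P.hβ
  have hq := P.hq
  have hq1 := P.hq1
  have hσ := P.σpos
  set U := evr (Uco κ q σ) with hU
  have hXn : ∀ n : ℕ, 0 < X / q ^ n := fun n => by positivity
  have hle : ∀ n : ℕ, X ≤ X / q ^ n := fun n => by
    rw [le_div_iff₀ (by positivity)]
    have : q ^ n ≤ 1 := pow_le_one₀ hq.le hq1.le
    nlinarith
  have hqs : ∀ n : ℕ, q * (X / q ^ (n + 1)) = X / q ^ n := fun n => by rw [pow_succ]; field_simp
  have key := no_cross (ρ := fun n => gR κ (q * (X / q ^ n)) * (gR κ (q / (X / q ^ n)) * U (1 / (X / q ^ n))) /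
      (gR κ (X / q ^ n) * (σ * U (1 / (q * (X / q ^ n))))))
    (r := fun n => gR κ (q * (X / q ^ n)) / (gR κ (X / q ^ n) * r (X / q ^ n)))
    (w := fun n => gR κ (q * (X / q ^ n)) / gR κ (X / q ^ n)) (T := 2 * τ) (c := 1)
    (fun n => by
      obtain ⟨h1, h2, -⟩ := hpos _ (hle n)
      have g1 := gR_pos P.hκ (q * (X / q ^ n))
      have g2 := gR_pos P.hκ (X / q ^ n)
      have g3 := gR_pos P.hκ (q / (X / q ^ n))
      positivity)
    (fun n => by
      have g1 := gR_pos P.hκ (q * (X / q ^ n))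
      have g2 := gR_pos P.hκ (X / q ^ n)
      have h1 := (hr _ (hO.div_pow hX n)).1
      positivity)
    (fun n => div_pos (gR_pos P.hκ _) (gR_pos P.hκ _))
    (by
      intro n
      have hx := hXn (n + 1)
      have fe := P.feUR hx.ne'
      have i0 := gR_inv κ hx.ne'
      have i1 := gR_inv κ (x := q * (X / q ^ (n + 1))) (by positivity)
      rw [← hqs n]
      set x := X / q ^ (n + 1) with hxdef
      rw [← hU] at fe
      have e3 : q / (q * x) = 1 / x := by field_simp
      obtain ⟨u0p, u1p, -⟩ := hpos x (hle (n + 1))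
      have u2p : 0 < U (1 / (q * (q * x))) := by
        have := (hpos _ (hle n)).2.1
        rwa [← hqs n] at this
      have g0 := gR_pos P.hκ x
      have g1 := gR_pos P.hκ (q * x)
      have g2 := gR_pos P.hκ (q * (q * x))
      have h0 := gR_pos P.hκ (q / x)
      rw [e3, i0]
      rw [i0, i1] at fe
      generalize U (1 / x) = u0 at *
      generalize U (1 / (q * x)) = u1 at *
      generalize U (1 / (q * (q * x))) = u2 at *
      generalize gR κ x = G0 at *
      generalize gR κ (q * x) = G1 at *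
      generalize gR κ (q * (q * x)) = G2 at *
      generalize gR κ (q / x) = H0 at *
      have fe2 : u2 = (2 * τ * G0 * u1 - G1 / σ * (H0 * u0)) / (σ * x ^ 2) := by
        rw [eq_div_iff (by positivity)]
        calc u2 * (σ * x ^ 2) = (σ * u2) * x ^ 2 := by ring
          _ = _ := by rw [fe]; field_simp
      have e4 : G2 / G1 / (G2 * (G0 / x ^ 2 * u1) / (G1 * (σ * u2))) = σ * u2 * x ^ 2 / (G0 * u1) := by
        field_simp
      rw [e4]
      have e5 : σ * u2 * x ^ 2 = 2 * τ * G0 * u1 - G1 / σ * (H0 * u0) := by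
        rw [fe2]; field_simp
      rw [e5]
      field_simp
      ring)
    (by
      intro n
      have h1 := (hr _ (hO.div_pow hX (n + 1))).2
      have hr1 := (hr _ (hO.div_pow hX (n + 1))).1
      have hr0 := (hr _ (hO.div_pow hX n)).1
      have g1 := gR_pos P.hκ (q * (X / q ^ n))
      have g2 := gR_pos P.hκ (X / q ^ n)
      rw [hqs] at h1
      beta_reduce
      have e1 : gR κ (q * (X / q ^ n)) / gR κ (X / q ^ n) /
          (gR κ (q * (X / q ^ n)) / (gR κ (X / q ^ n) * r (X / q ^ n))) = r (X / q ^ n) := by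
        generalize gR κ (q * (X / q ^ n)) = G1 at *
        field_simp
      rw [e1, hqs, ← div_div]
      linarith)
    one_pos
    (by
      intro n
      have hone : ∏ j ∈ range n, (1:ℝ) = 1 := prod_const_one
      refine le_trans (le_of_eq hone.symm) (Finset.prod_le_prod (fun _ _ => zero_le_one) ?_)
      intro j _
      beta_reduce
      obtain ⟨h1, h2, h3⟩ := hpos _ (hle j)
      have g1 := gR_pos P.hκ (q * (X / q ^ j))
      have g2 := gR_pos P.hκ (X / q ^ j)
      have g3 := gR_pos P.hκ (q / (X / q ^ j))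
      have e : gR κ (q * (X / q ^ j)) / gR κ (X / q ^ j) /
          (gR κ (q * (X / q ^ j)) * (gR κ (q / (X / q ^ j)) * U (1 / (X / q ^ j))) /
            (gR κ (X / q ^ j) * (σ * U (1 / (q * (X / q ^ j)))))) ^ 2 =
          (gR κ (X / q ^ j) * (σ * U (1 / (q * (X / q ^ j)))) ^ 2) /
            (gR κ (q * (X / q ^ j)) * (gR κ (q / (X / q ^ j)) * U (1 / (X / q ^ j))) ^ 2) := by
        field_simp
      rw [e, one_le_div (by positivity)]
      exact h3)
  simp only [pow_zero, div_one] at key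
  obtain ⟨h1, h2, -⟩ := hpos X le_rfl
  refine ⟨h1, ?_⟩
  have g1 := gR_pos P.hκ (q * X)
  have g2 := gR_pos P.hκ X
  have g3 := gR_pos P.hκ (q / X)
  have hr0 := (hr X hX).1
  rw [div_le_div_iff₀ (by positivity) (by positivity)] at key
  rw [← hU]
  have e5 : gR κ (q * X) * (gR κ (q / X) * U (1 / X)) * (gR κ X * r X) =
      (gR κ (q * X) * gR κ X) * (r X * gR κ (q / X) * U (1 / X)) := by ring
  have e6 : gR κ (q * X) * (gR κ X * (σ * U (1 / (q * X)))) =
      (gR κ (q * X) * gR κ X) * (σ * U (1 / (q * X))) := by ring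
  rw [e5, e6] at key
  exact le_of_mul_le_mul_left key (by positivity)

/-- the `U` predicate holds on `O` -/
theorem Par.PU_all (P : Par κ q τ β σ) {O : Set ℝ} {r : ℝ → ℝ} (hO : Inv q O) (hr : Sup κ q τ O r)
    {x : ℝ} (hx : x ∈ O) : PU κ q σ r x := by
  obtain ⟨X0, hX0, hfar⟩ := P.nearInf
  have hq := P.hq
  have hx0 := (hO x hx).1
  obtain ⟨N, hN⟩ := exists_pow_small P.hq P.hq1 hX0 hx0
  have hN' : X0 ≤ x / q ^ N := by
    rw [le_div_iff₀ (by positivity)]; exact hN
  have base : PU κ q σ r (x / q ^ N) :=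
    P.PU_base hO hr (hO.div_pow hx N) (fun y hy => hfar y (hN'.trans hy))
  have down : ∀ n : ℕ, n ≤ N → PU κ q σ r (x / q ^ (N - n)) := by
    intro n
    induction n with
    | zero => intro _; simpa using base
    | succ n ih =>
      intro hn
      have h1 := ih (by omega)
      have h2 := P.PU_step hO hr (hO.div_pow hx _) h1
      have e : q * (x / q ^ (N - n)) = x / q ^ (N - (n + 1)) := by
        rw [show N - n = N - (n + 1) + 1 by omega, pow_succ]; field_simp
      rwa [e] at h2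
  have := down N le_rfl
  simpa using this

/-- nonnegativity of `K` on an orbit carrying a supersolution -/
theorem Par.K_nonneg (P : Par κ q τ β σ) {O : Set ℝ} {r : ℝ → ℝ} (hO : Inv q O) (hr : Sup κ q τ O r)
    {x : ℝ} (hx : x ∈ O) : 0 ≤ KR κ q β σ x := by
  obtain ⟨a1, a2⟩ := P.PA_all hO hr hx
  obtain ⟨u1, u2⟩ := P.PU_all hO hr hx
  have h0 := gR_pos P.hκ (q / x)
  unfold KR
  have h1 := mul_le_mul_of_nonneg_left u2 a1.le
  have h2 := mul_le_mul_of_nonneg_right a2 (mul_pos h0 u1).le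
  nlinarith

lemma Inv.Ioi {q : ℝ} (hq : 0 < q) : Inv q (Set.Ioi 0) := by
  intro x hx
  have hx' : 0 < x := hx
  exact ⟨hx', show 0 < q * x by positivity, show 0 < x / q by positivity⟩

/-- the orbit of `x` -/
def orb (q x : ℝ) : Set ℝ := {y | ∃ m : ℤ, y = x * q ^ m}

lemma Inv.orb {q x : ℝ} (hq : 0 < q) (hx : 0 < x) : Inv q (orb q x) := by
  rintro y ⟨m, rfl⟩
  refine ⟨by positivity, ⟨m + 1, ?_⟩, ⟨m - 1, ?_⟩⟩
  · rw [zpow_add₀ hq.ne', zpow_one]; ring
  · rw [zpow_sub₀ hq.ne', zpow_one]; ring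

/-- parity -/
lemma KR_neg (κ q β σ x : ℝ) : KR κ q β σ (-x) = KR (-κ) q β σ x := by
  have hA : ∀ y, evr (Aco κ q β) (-y) = evr (Aco (-κ) q β) y := by
    intro y
    rw [← evr_neg]
    congr 1
    funext k
    unfold Aco
    rw [← cf_parity]
    congr 1
    · funext i
      rcases i with _ | _ | _ | _ | _ | i <;> simp [q5]
    · funext i
      rcases i with _ | _ | _ | _ | _ | i <;> simp [q5] <;> ring
  have hU : ∀ y, evr (Uco κ q σ) (-y) = evr (Uco (-κ) q σ) y := by
    intro y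
    rw [← evr_neg]
    congr 1
    funext k
    unfold Uco
    rw [← cf_parity]
    congr 1
    · funext i
      rcases i with _ | _ | _ | _ | _ | i <;> simp [q5]
    · funext i
      rcases i with _ | _ | _ | _ | _ | i <;> simp [q5] <;> ring
  have hg : ∀ y, gR κ (-y) = gR (-κ) y := by intro y; unfold gR; ring
  unfold KR
  rw [show q * -x = -(q * x) by ring, hA, hA, hg, show q / -x = -(q / x) by ring, hg,
    show 1 / -x = -(1 / x) by ring, hU, show 1 / -(q * x) = -(1 / (q * x)) by ring, hU]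

/-- nonnegativity on the negative axis -/
theorem Par.K_neg_nonneg (P : Par κ q τ β σ) (hκ0 : 0 ≤ κ) {x : ℝ} (hx : 0 < x) : 0 ≤ KR κ q β σ (-x) := by
  rw [KR_neg]
  have hq := P.hq
  have hq1 := P.hq1
  have hβ := P.hβ
  apply P.neg.K_nonneg (O := Set.Ioi 0) (r := fun _ => β) (Inv.Ioi hq) ?_ hx
  intro y hy
  have hy' : 0 < y := hy
  refine ⟨hβ, ?_⟩
  have g0 := gR_pos P.neg.hκ y
  have h1 : gR (-κ) (q * y) / gR (-κ) y ≤ 1 := by
    rw [div_le_one g0]
    unfold gR
    have : q * y ≤ y := by nlinarith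
    have : 0 < q * y := by positivity
    nlinarith
  have h2 : gR (-κ) (q * y) / gR (-κ) y / β ≤ 1 / β := by gcongr
  have h3 : 2 * τ = β + 1 / β := by
    have := P.h1
    field_simp
    linarith
  rw [h3]
  linarith

/-- the transfer: `K` is nonnegative on the half line as soon as the orbit of `z` carries a supersolution -/
theorem Par.K_transfer (P : Par κ q τ β σ) (hκ0 : 0 ≤ κ) {z : ℝ} (hz : 0 < z) (hz2 : z ^ 2 = 1 / (β * σ))
    (hK : 0 ≤ KR κ q β σ z) {x : ℝ} (hx : 0 < x) : 0 ≤ KR κ q β σ x := by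
  obtain ⟨a, b, c, ha, hb, hc, h⟩ := P.K_theta hz hz2 hx
  have h1 := P.K_neg_nonneg hκ0 hz
  have h2 : 0 ≤ a * KR κ q β σ x := by rw [h]; positivity
  exact nonneg_of_mul_nonneg_right h2 ha

theorem Par.K_transfer_pos (P : Par κ q τ β σ) (hκ0 : 0 ≤ κ) {z : ℝ} (hz : 0 < z) (hz2 : z ^ 2 = 1 / (β * σ))
    (hK : 0 < KR κ q β σ z) {x : ℝ} (hx : 0 < x) : 0 < KR κ q β σ x := by
  obtain ⟨a, b, c, ha, hb, hc, h⟩ := P.K_theta hz hz2 hx
  have h1 := P.K_neg_nonneg hκ0 hz
  have h2 : 0 < a * KR κ q β σ x := by rw [h]; positivity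
  exact (mul_pos_iff_of_pos_left ha).1 h2

end

end Pool.Agent.helper71.NO
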