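import Mathlib
import Pool.Agent.helper71.NO.C2

set_option autoImplicit false

namespace Pool.Agent.helper71.NO

open Finset Filter Topology

noncomputable section

variable {κ q τ β σ : ℝ}

lemma exists_fund {q : ℝ} (hq : 0 < q) (hq1 : q < 1) {S0 x : ℝ} (hS : 0 < S0) (hx : 0 < x) (hxS : x ≤ S0 / q) :
    ∃ j : ℕ, x / q ^ j ∈ Set.Icc S0 (S0 / q) := by
  have hex : ∃ n : ℕ, S0 ≤ x / q ^ n := by
    obtain ⟨N, hN⟩ := exists_pow_small hq hq1 hS hx
    exact ⟨N, by rw [le_div_iff₀ (by positivity)]; exact hN⟩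
  classical
  refine ⟨Nat.find hex, Nat.find_spec hex, ?_⟩
  rcases h : Nat.find hex with _ | k
  · simpa using hxS
  · have h1 : ¬ (S0 ≤ x / q ^ k) := Nat.find_min hex (by omega)
    push Not at h1
    rw [pow_succ, ← div_div]
    exact (div_lt_div_of_pos_right h1 hq).le

/-- two consecutive zeros are impossible -/
lemma Par.no_two_zeros (P : Par κ q τ β σ) {x : ℝ} (hx : 0 < x) (h0 : evr (Aco κ q β) x = 0)
    (h1 : evr (Aco κ q β) (q * x) = 0) : False := by
  have hq := P.hq
  have hβ := P.hβ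
  have all : ∀ n : ℕ, evr (Aco κ q β) (x * q ^ n) = 0 ∧ evr (Aco κ q β) (x * q ^ (n + 1)) = 0 := by
    intro n
    induction n with
    | zero => exact ⟨by simpa using h0, by simpa [mul_comm] using h1⟩
    | succ n ih =>
      refine ⟨ih.2, ?_⟩
      have fe := P.feAR (x * q ^ n)
      have e1 : q * (x * q ^ n) = x * q ^ (n + 1) := by rw [pow_succ]; ring
      have e2 : q * (x * q ^ (n + 1)) = x * q ^ (n + 1 + 1) := by rw [pow_succ _ (n + 1)]; ring
      rw [e1, e2, ih.1, ih.2] at fe
      have g0 := gR_pos P.hκ (x * q ^ n)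
      have g2 := gR_pos P.hκ (x * q ^ (n + 1 + 1))
      have h3 : gR κ (x * q ^ n) * β ^ 2 * gR κ (x * q ^ (n + 1 + 1)) * evr (Aco κ q β) (x * q ^ (n + 1 + 1)) = 0 := by
        linear_combination fe
      have h4 : gR κ (x * q ^ n) * β ^ 2 * gR κ (x * q ^ (n + 1 + 1)) ≠ 0 := by positivity
      exact (mul_eq_zero.1 h3).resolve_left h4
  obtain ⟨δ, hδ, hnear⟩ := P.near0
  obtain ⟨N, hN⟩ := exists_pow_small P.hq P.hq1 hx hδ
  have := hnear (x * q ^ N) (by positivity) hN
  rw [(all N).1] at this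
  exact lt_irrefl _ this

/-- positivity of `A` on the half line -/
theorem Par.A_pos (P : Par κ q τ β σ) (hK : ∀ x > 0, 0 ≤ KR κ q β σ x) {z : ℝ} (hz : 0 < z)
    (hA : ∀ x ∈ orb q z, 0 < evr (Aco κ q β) x) : ∀ x > 0, 0 < evr (Aco κ q β) x := by
  have hq := P.hq
  have hq1 := P.hq1
  have hβ := P.hβ
  have hσ := P.σpos
  set A := evr (Aco κ q β) with hAdef
  have cA : Continuous A := P.entA.continuous
  obtain ⟨X0, hX0, hfar⟩ := P.nearInf
  obtain ⟨δ, hδ, hnear⟩ := P.near0
  rw [← hAdef] at hnear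
  obtain ⟨N, hN⟩ := exists_pow_small hq hq1 hX0 hz
  set S0 := z / q ^ N with hS0
  have hS0p : 0 < S0 := by positivity
  have hXS : X0 ≤ S0 := by rw [hS0, le_div_iff₀ (by positivity)]; exact hN
  have horb : S0 ∈ orb q z := (Inv.orb hq hz).div_pow ⟨0, by simp⟩ N
  have hA' : ∀ j : ℕ, 0 < A (S0 * q ^ j) := fun j => hA _ ((Inv.orb hq hz).mul_pow horb j)
  have hS0q : 0 < S0 / q := by positivity
  obtain ⟨M, hM⟩ := exists_pow_small hq hq1 hS0q hδ
  have hne : (range (M + 1)).Nonempty := ⟨0, by simp⟩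
  set m : ℝ → ℝ := fun S => (range (M + 1)).inf' hne (fun j => A (S * q ^ j)) with hm
  have hmc : Continuous m := by
    apply Continuous.finset_inf'_apply
    intro j _
    exact cA.comp (by fun_prop)
  have hKout : ∀ x, X0 ≤ x → 0 < x → A x ≤ 0 → A (q * x) ≤ 0 := by
    intro x hx hx0 hAx
    obtain ⟨u0, u1, -⟩ := hfar x hx
    have hk := hK x hx0
    unfold KR at hk
    rw [← hAdef] at hk
    by_contra hcon
    push Not at hcon
    have g1 := gR_pos P.hκ (q * x)
    have g2 := gR_pos P.hκ (q / x)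
    have h1 : 0 < β * gR κ (q * x) * gR κ (q / x) * A (q * x) * evr (Uco κ q σ) (1 / x) := by positivity
    have h2 : σ * A x * evr (Uco κ q σ) (1 / (q * x)) ≤ 0 := by
      have : 0 ≤ σ * evr (Uco κ q σ) (1 / (q * x)) := by positivity
      nlinarith
    linarith
  have hSle : ∀ S ∈ Set.Icc S0 (S0 / q), ∀ j : ℕ, M ≤ j → 0 < A (S * q ^ j) := by
    intro S hS j hj
    have hSp : 0 < S := hS0p.trans_le hS.1
    apply hnear _ (by positivity)
    have h1 : q ^ j ≤ q ^ M := pow_le_pow_of_le_one hq.le hq1.le hj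
    calc S * q ^ j ≤ (S0 / q) * q ^ M := by
          have := hS.2
          gcongr
      _ ≤ δ := hM
  have hm0 : ∀ S ∈ Set.Icc S0 (S0 / q), m S ≠ 0 := by
    intro S hS hzero
    have hSp : 0 < S := hS0p.trans_le hS.1
    have hall : ∀ j ∈ range (M + 1), 0 ≤ A (S * q ^ j) := by
      intro j hj
      rw [← hzero]
      exact inf'_le (fun j => A (S * q ^ j)) hj
    obtain ⟨j, hj, hjz⟩ := exists_mem_eq_inf' hne (fun j => A (S * q ^ j))
    have hj0 : A (S * q ^ j) = 0 := by rw [← hjz]; exact hzero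
    have hj' : j ≤ M := by have := mem_range.1 hj; omega
    rcases Nat.lt_or_ge j M with hjM | hjM
    · have hAj1 : 0 ≤ A (S * q ^ (j + 1)) := hall _ (mem_range.2 (by omega))
      have e1 : q * (S * q ^ j) = S * q ^ (j + 1) := by rw [pow_succ]; ring
      have hz2 : A (q * (S * q ^ j)) = 0 := by
        rcases j with _ | i
        · have h1 := hKout S (hXS.trans hS.1) hSp (by rw [pow_zero, mul_one] at hj0; exact hj0.le)
          rw [pow_zero, mul_one]
          rw [pow_zero, mul_one] at e1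
          rw [← e1] at hAj1
          exact le_antisymm h1 hAj1
        · have fe := P.feAR (S * q ^ i)
          have e2 : q * (S * q ^ i) = S * q ^ (i + 1) := by rw [pow_succ]; ring
          rw [e2, ← hAdef, hj0, e1] at fe
          rw [e1]
          have hAi : 0 ≤ A (S * q ^ i) := hall _ (mem_range.2 (by omega))
          have g0 := gR_pos P.hκ (S * q ^ i)
          have g2 := gR_pos P.hκ (S * q ^ (i + 1 + 1))
          have h5 : 0 ≤ gR κ (S * q ^ i) * β ^ 2 * gR κ (S * q ^ (i + 1 + 1)) * A (S * q ^ (i + 1 + 1)) := by positivity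
          have h6 : gR κ (S * q ^ i) * β ^ 2 * gR κ (S * q ^ (i + 1 + 1)) * A (S * q ^ (i + 1 + 1)) = 0 := by
            nlinarith
          have h4 : gR κ (S * q ^ i) * β ^ 2 * gR κ (S * q ^ (i + 1 + 1)) ≠ 0 := by positivity
          exact (mul_eq_zero.1 h6).resolve_left h4
      exact P.no_two_zeros (by positivity) hj0 hz2
    · have := hSle S hS j hjM
      rw [hj0] at this
      exact lt_irrefl _ this
  have hmS0 : 0 < m S0 := by
    rw [hm]
    simp only
    rw [lt_inf'_iff]
    intro j _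
    exact hA' j
  have hmpos : ∀ S ∈ Set.Icc S0 (S0 / q), 0 < m S := by
    intro S hS
    by_contra hcon
    push Not at hcon
    obtain ⟨S', hS', hS'0⟩ := intermediate_value_Icc' hS.1 hmc.continuousOn (show (0:ℝ) ∈ Set.Icc (m S) (m S0) from ⟨hcon, hmS0.le⟩)
    exact hm0 S' ⟨hS'.1, hS'.2.trans hS.2⟩ hS'0
  have hsmall : ∀ x, 0 < x → x ≤ S0 / q → 0 < A x := by
    intro x hx hxS
    obtain ⟨j, hj⟩ := exists_fund hq hq1 hS0p hx hxS
    have e : x = x / q ^ j * q ^ j := by field_simp
    rw [e]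
    rcases Nat.lt_or_ge j (M + 1) with hjM | hjM
    · have h1 := hmpos _ hj
      rw [hm] at h1
      simp only at h1
      rw [lt_inf'_iff] at h1
      exact h1 j (mem_range.2 hjM)
    · exact hSle _ hj j (by omega)
  have hout : ∀ n : ℕ, ∀ x, 0 < x → x * q ^ n ≤ S0 / q → 0 < A x := by
    intro n
    induction n with
    | zero => intro x hx h; exact hsmall x hx (by simpa using h)
    | succ n ih =>
      intro x hx h
      rcases le_or_gt x (S0 / q) with hle | hgt
      · exact hsmall x hx hle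
      · have h1 : 0 < A (q * x) := by
          apply ih (q * x) (by positivity)
          calc q * x * q ^ n = x * q ^ (n + 1) := by rw [pow_succ]; ring
            _ ≤ _ := h
        by_contra hcon
        push Not at hcon
        have hS1 : S0 ≤ S0 / q := by rw [le_div_iff₀ hq]; nlinarith
        have := hKout x (hXS.trans (hS1.trans hgt.le)) hx hcon
        linarith
  intro x hx
  obtain ⟨n, hn⟩ := exists_pow_small hq hq1 hx hS0q
  exact hout n x hx hn

/-- the supersolution attached to `A` -/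
lemma Par.sup_of_A (P : Par κ q τ β σ) {O : Set ℝ} (hO : Inv q O) (hA : ∀ x ∈ O, 0 < evr (Aco κ q β) x) {x : ℝ} (hx : x ∈ O) :
    0 < β * gR κ (q * x) * evr (Aco κ q β) (q * x) / evr (Aco κ q β) x ∧
    β * gR κ (q * (q * x)) * evr (Aco κ q β) (q * (q * x)) / evr (Aco κ q β) (q * x) +
      gR κ (q * x) / gR κ x / (β * gR κ (q * x) * evr (Aco κ q β) (q * x) / evr (Aco κ q β) x) = 2 * τ := by
  have h0 := hA x hx
  have h1 := hA _ (hO x hx).2.1
  have g0 := gR_pos P.hκ x
  have g1 := gR_pos P.hκ (q * x)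
  have hβ := P.hβ
  have fe := P.feAR x
  refine ⟨by positivity, ?_⟩
  generalize evr (Aco κ q β) x = a0 at *
  generalize evr (Aco κ q β) (q * x) = a1 at *
  generalize evr (Aco κ q β) (q * (q * x)) = a2 at *
  generalize gR κ x = G0 at *
  generalize gR κ (q * x) = G1 at *
  generalize gR κ (q * (q * x)) = G2 at *
  rw [P.h1] at fe
  field_simp
  rw [fe]
  ring

end

end Pool.Agent.helper71.NO
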