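import Mathlib
import Pool.Agent.helper30.NR.Dual
import Pool.Agent.helper71.NO.C3

set_option autoImplicit false

namespace Pool.Agent.helper71.NO

open Finset Filter Topology

noncomputable section

/-- the weight -/
def bR (κ q x : ℝ) : ℝ := Real.sqrt (gR κ (q * x) / (q * gR κ x))

/-- duality along an invariant set -/
theorem orbit_sup {κ q lam : ℝ} (hκ : κ ^ 2 < 1) (hq : 0 < q) (hlam : 0 < lam) {O : Set ℝ} (hO : Inv q O)
    (h : ∀ u ∈ O, ∀ (N : ℕ) (y : ℕ → ℝ), ∑ n ∈ range N, bR κ q (u * q ^ n) * y n * y (n + 1) ≤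
      lam * ∑ n ∈ range (N + 1), y n ^ 2) :
    ∃ r : ℝ → ℝ, Sup κ q (lam * Real.sqrt q) O r := by
  have hsq : 0 < Real.sqrt q := Real.sqrt_pos.2 hq
  have hsq2 : Real.sqrt q ^ 2 = q := Real.sq_sqrt hq.le
  -- transition coefficient
  set ρ : ℝ → ℝ := fun x => gR κ (q * x) / (q * lam ^ 2 * gR κ x) with hρ
  have hρpos : ∀ x, 0 < ρ x := by
    intro x
    have h1 := gR_pos hκ x
    have h2 := gR_pos hκ (q * x)
    simp only [hρ]
    positivity
  -- iterates
  let Dm : ℕ → ℝ → ℝ := fun m => Nat.rec (fun _ => 2) (fun _ f x => 2 - ρ (x / q) / f (x / q)) m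
  have hDm0 : ∀ x, Dm 0 x = 2 := fun x => rfl
  have hDms : ∀ m x, Dm (m + 1) x = 2 - ρ (x / q) / Dm m (x / q) := fun m x => rfl
  -- positivity
  have hpos : ∀ m, ∀ x ∈ O, 0 < Dm m x := by
    intro m x hx
    set u := x / q ^ m with hu
    have hu0 : u ∈ O := hO.div_pow hx m
    have hup := (hO u hu0).1
    have hxu : x = u * q ^ m := by
      rw [hu]; field_simp
    have key := Pool.Agent.helper30.NR.pivots_pos (fun n => q ^ n / gR κ (u * q ^ n)) (fun n => Dm n (u * q ^ n)) lam hlam
      (fun n => div_pos (pow_pos hq n) (gR_pos hκ _)) (hDm0 (u * q ^ 0)) (by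
        intro n
        rw [hDms]
        have e1 : u * q ^ (n + 1) / q = u * q ^ n := by
          rw [pow_succ]; field_simp
        rw [e1]
        have h1 := gR_pos hκ (u * q ^ n)
        have h2 := gR_pos hκ (u * q ^ (n + 1))
        have e2 : q * (u * q ^ n) = u * q ^ (n + 1) := by rw [pow_succ]; ring
        have e3 : q ^ (n + 1) = q ^ n * q := pow_succ q n
        have e4 : ρ (u * q ^ n) = q ^ n / gR κ (u * q ^ n) /
            (q ^ (n + 1) / gR κ (u * q ^ (n + 1)) * lam ^ 2) := by
          simp only [hρ]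
          rw [e2]
          generalize gR κ (u * q ^ (n + 1)) = g2 at *
          generalize gR κ (u * q ^ n) = g1 at *
          rw [e3]
          field_simp
        rw [e4]) (fun N x => by
          have hN := h u hu0 N (fun n => x n * Real.sqrt (q ^ n / gR κ (u * q ^ n)))
          have e5 : ∑ n ∈ range (N + 1), (x n * Real.sqrt (q ^ n / gR κ (u * q ^ n))) ^ 2 =
              ∑ n ∈ range (N + 1), x n ^ 2 * (q ^ n / gR κ (u * q ^ n)) := by
            apply sum_congr rfl
            intro n _
            rw [mul_pow, Real.sq_sqrt (div_pos (pow_pos hq n) (gR_pos hκ _)).le]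
          have e6 : ∑ n ∈ range N, bR κ q (u * q ^ n) * (x n * Real.sqrt (q ^ n / gR κ (u * q ^ n))) *
              (x (n + 1) * Real.sqrt (q ^ (n + 1) / gR κ (u * q ^ (n + 1)))) =
              ∑ n ∈ range N, x n * x (n + 1) * (q ^ n / gR κ (u * q ^ n)) := by
            apply sum_congr rfl
            intro n _
            have h1 := gR_pos hκ (u * q ^ n)
            have h2 := gR_pos hκ (u * q ^ (n + 1))
            have hqn : 0 < q ^ n := pow_pos hq n
            have e2 : q * (u * q ^ n) = u * q ^ (n + 1) := by rw [pow_succ]; ring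
            have e3 : q ^ (n + 1) = q ^ n * q := pow_succ q n
            unfold bR
            rw [e2]
            have e7 : Real.sqrt (gR κ (u * q ^ (n + 1)) / (q * gR κ (u * q ^ n))) *
                Real.sqrt (q ^ n / gR κ (u * q ^ n)) * Real.sqrt (q ^ (n + 1) / gR κ (u * q ^ (n + 1))) =
                q ^ n / gR κ (u * q ^ n) := by
              rw [← Real.sqrt_mul (by positivity), ← Real.sqrt_mul (by positivity)]
              have e8 : gR κ (u * q ^ (n + 1)) / (q * gR κ (u * q ^ n)) * (q ^ n / gR κ (u * q ^ n)) *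
                  (q ^ (n + 1) / gR κ (u * q ^ (n + 1))) = (q ^ n / gR κ (u * q ^ n)) ^ 2 := by
                generalize gR κ (u * q ^ (n + 1)) = g2 at *
                generalize gR κ (u * q ^ n) = g1 at *
                rw [e3]
                field_simp
              rw [e8, Real.sqrt_sq (by positivity)]
            calc _ = x n * x (n + 1) * (Real.sqrt (gR κ (u * q ^ (n + 1)) / (q * gR κ (u * q ^ n))) *
                Real.sqrt (q ^ n / gR κ (u * q ^ n)) * Real.sqrt (q ^ (n + 1) / gR κ (u * q ^ (n + 1)))) := by ring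
              _ = _ := by rw [e7]
          beta_reduce at hN
          rw [e5, e6] at hN
          exact hN) m
    rw [hxu]
    exact key
  -- monotonicity
  have hmono : ∀ m, ∀ x ∈ O, Dm (m + 1) x ≤ Dm m x := by
    intro m
    induction m with
    | zero =>
      intro x hx
      rw [hDms, hDm0, hDm0]
      have := hρpos (x / q)
      have : 0 ≤ ρ (x / q) / 2 := by positivity
      linarith
    | succ m ih =>
      intro x hx
      rw [hDms (m + 1), hDms m]
      have h1 : x / q ∈ O := (hO x hx).2.2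
      have h2 := ih (x / q) h1
      have h3 := hpos (m + 1) (x / q) h1
      have h4 := div_le_div_of_nonneg_left (hρpos (x / q)).le h3 h2
      linarith
  have hlow : ∀ m, ∀ x ∈ O, ρ x / 2 ≤ Dm m x := by
    intro m x hx
    have h1 := hpos (m + 1) (q * x) (hO x hx).2.1
    rw [hDms] at h1
    have e1 : q * x / q = x := by field_simp
    rw [e1] at h1
    have h2 := hpos m x hx
    have h3 : ρ x / Dm m x < 2 := by linarith
    rw [div_lt_iff₀ h2] at h3
    linarith
  have hanti : ∀ x ∈ O, Antitone (fun m => Dm m x) := fun x hx =>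
    antitone_nat_of_succ_le fun m => hmono m x hx
  have hbdd : ∀ x ∈ O, BddBelow (Set.range fun m => Dm m x) := by
    intro x hx
    refine ⟨ρ x / 2, ?_⟩
    rintro _ ⟨m, rfl⟩
    exact hlow m x hx
  have hlim : ∀ x ∈ O, Tendsto (fun m => Dm m x) atTop (𝓝 (⨅ m, Dm m x)) := fun x hx =>
    tendsto_atTop_ciInf (hanti x hx) (hbdd x hx)
  have hDpos : ∀ x ∈ O, 0 < ⨅ m, Dm m x := by
    intro x hx
    have : ρ x / 2 ≤ ⨅ m, Dm m x := le_ciInf fun m => hlow m x hx
    have := hρpos x
    linarith
  refine ⟨fun x => (lam * Real.sqrt q) * ⨅ m, Dm m x, fun x hx => ⟨mul_pos (by positivity) (hDpos x hx), ?_⟩⟩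
  have hqx : q * x ∈ O := (hO x hx).2.1
  have l1 := (tendsto_add_atTop_iff_nat 1).2 (hlim (q * x) hqx)
  have l2 : Tendsto (fun m => 2 - ρ x / Dm m x) atTop (𝓝 (2 - ρ x / ⨅ m, Dm m x)) :=
    tendsto_const_nhds.sub (tendsto_const_nhds.div (hlim x hx) (hDpos x hx).ne')
  have l3 : ∀ m, Dm (m + 1) (q * x) = 2 - ρ x / Dm m x := by
    intro m
    rw [hDms]
    have e1 : q * x / q = x := by field_simp
    rw [e1]
  simp_rw [l3] at l1
  have l4 := tendsto_nhds_unique l1 l2
  beta_reduce
  rw [l4]
  have hD := hDpos x hx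
  have g0 := gR_pos hκ x
  have g1 := gR_pos hκ (q * x)
  simp only [hρ]
  generalize (⨅ m, Dm m x) = D at *
  apply le_of_eq
  have e9 : gR κ (q * x) / gR κ x / (lam * Real.sqrt q * D) =
      lam * Real.sqrt q * (gR κ (q * x) / (q * lam ^ 2 * gR κ x) / D) := by
    field_simp
    rw [hsq2]
    try ring
  rw [e9]
  ring

end

end Pool.Agent.helper71.NO
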