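import Mathlib
import Pool.Agent.helper71.NO.C3

set_option autoImplicit false

namespace Pool.Agent.helper71.NO

open Finset Filter Topology

noncomputable section

variable {κ q τ β σ : ℝ}

lemma Sup.mono {O : Set ℝ} {r : ℝ → ℝ} {τ' : ℝ} (h : Sup κ q τ' O r) (hle : τ' ≤ τ) : Sup κ q τ O r :=
  fun x hx => ⟨(h x hx).1, by have := (h x hx).2; linarith⟩

/-- strict positivity of `K` -/
theorem Par.K_strict (P : Par κ q τ β σ) {O : Set ℝ} {r : ℝ → ℝ} {τ' : ℝ} (hO : Inv q O) (hr : Sup κ q τ' O r)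
    (hlt : τ' < τ) {x : ℝ} (hx : x ∈ O) : 0 < KR κ q β σ x := by
  have hr' : Sup κ q τ O r := hr.mono hlt.le
  have h0 := P.K_nonneg hO hr' hx
  refine lt_of_le_of_ne h0 (fun hzero => ?_)
  obtain ⟨a1, a2⟩ := P.PA_all hO hr' hx
  obtain ⟨u1, u2⟩ := P.PU_all hO hr' hx
  have hx1 := (hO x hx).2.1
  obtain ⟨b1, b2⟩ := P.PA_all hO hr' hx1
  have hA : ∀ y ∈ O, 0 < evr (Aco κ q β) y := fun y hy => (P.PA_all hO hr' hy).1
  obtain ⟨s1, s2⟩ := P.sup_of_A hO hA hx
  have hH := gR_pos P.hκ (q / x)
  have hrx := (hr x hx).1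
  have hr2 := (hr x hx).2
  have g0 := gR_pos P.hκ x
  have g1 := gR_pos P.hκ (q * x)
  unfold KR at hzero
  have heq : r x * evr (Aco κ q β) x = β * gR κ (q * x) * evr (Aco κ q β) (q * x) := by
    have h1 := mul_le_mul_of_nonneg_left u2 a1.le
    have h2 : (r x * evr (Aco κ q β) x) * (gR κ (q / x) * evr (Uco κ q σ) (1 / x)) ≤
        (β * gR κ (q * x) * evr (Aco κ q β) (q * x)) * (gR κ (q / x) * evr (Uco κ q σ) (1 / x)) := by
      nlinarith
    exact le_antisymm (le_of_mul_le_mul_right h2 (mul_pos hH u1)) a2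
  have hρ : β * gR κ (q * x) * evr (Aco κ q β) (q * x) / evr (Aco κ q β) x = r x := by
    rw [← heq]; field_simp
  rw [hρ] at s2
  have h3 : β * gR κ (q * (q * x)) * evr (Aco κ q β) (q * (q * x)) / evr (Aco κ q β) (q * x) ≤ r (q * x) := by
    rw [div_le_iff₀ b1]; exact b2
  linarith

/-- the elementary one step inequality -/
lemma step_ineq {W s D c : ℝ} (hs : 0 < s) (hD : 0 < D) (hc : 0 < c) (h : s * (s + c) ≤ W) :
    min D c ≤ W * D / (s * (s + D)) := by
  rw [le_div_iff₀ (by positivity)]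
  have h1 : D * (s * (s + c)) ≤ D * W := mul_le_mul_of_nonneg_left h hD.le
  rcases le_total D c with hle | hle
  · rw [min_eq_left hle]
    have : D * (s * (s + D)) ≤ D * (s * (s + c)) := by gcongr
    linarith
  · rw [min_eq_right hle]
    have : c * s ^ 2 ≤ D * s ^ 2 := by gcongr
    nlinarith

/-- if `K` is strictly positive there is a supersolution with a smaller constant -/
theorem Par.strict (P : Par κ q τ β σ) (hκ0 : 0 ≤ κ) (hβ1 : β < 1)
    (hA : ∀ x > 0, 0 < evr (Aco κ q β) x) (hU : ∀ x > 0, 0 < evr (Uco κ q σ) (1 / x))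
    (hK : ∀ x > 0, 0 < KR κ q β σ x) : ∃ ε : ℝ, 0 < ε ∧ ∃ r : ℝ → ℝ, Sup κ q (τ - ε) (Set.Ioi 0) r := by
  have hq := P.hq
  have hq1 := P.hq1
  have hβ := P.hβ
  have hσ := P.σpos
  have hκ1 : κ < 1 := by have := P.hκ; nlinarith
  have hτ : 0 < τ := by have := P.h1; nlinarith
  set A := evr (Aco κ q β) with hAdef
  set U := evr (Uco κ q σ) with hUdef
  have cA : Continuous A := P.entA.continuous
  have cU : Continuous U := P.entU.continuous
  have cg := gR_cont κ
  have gp : ∀ x, 0 < gR κ x := gR_pos P.hκ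
  set ρ : ℝ → ℝ := fun x => β * gR κ (q * x) * A (q * x) / A x with hρ
  set ρ' : ℝ → ℝ := fun x => σ * U (1 / (q * x)) / (gR κ (q / x) * U (1 / x)) with hρ'
  set W : ℝ → ℝ := fun x => gR κ (q * x) / gR κ x with hW
  have hρpos : ∀ x > 0, 0 < ρ x := by
    intro x hx
    have h1 := hA x hx
    have h2 := hA (q * x) (by positivity)
    have h3 := gp (q * x)
    simp only [hρ]
    positivity
  have hρ'pos : ∀ x > 0, 0 < ρ' x := by
    intro x hx
    have h1 := hU x hx
    have h2 := hU (q * x) (by positivity)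
    have h3 := gp (q / x)
    simp only [hρ']
    positivity
  have hWpos : ∀ x, 0 < W x := fun x => div_pos (gp _) (gp _)
  have e1 : ∀ x > 0, ρ (q * x) + W x / ρ x = 2 * τ := fun x hx =>
    (P.sup_of_A (Inv.Ioi hq) hA (x := x) hx).2
  have e2 : ∀ x > 0, ρ' (q * x) + W x / ρ' x = 2 * τ := by
    intro x hx
    have fe := P.feUR hx.ne'
    have i0 := gR_inv κ hx.ne'
    have i1 := gR_inv κ (x := q * x) (by positivity)
    rw [← hUdef] at fe
    have e3 : q / (q * x) = 1 / x := by field_simp
    have u0p := hU x hx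
    have u1p := hU (q * x) (by positivity)
    have g0 := gp x
    have g1 := gp (q * x)
    have h0 := gp (q / x)
    simp only [hρ', hW]
    rw [e3, fe, i0, i1]
    generalize U (1 / x) = u0 at *
    generalize U (1 / (q * x)) = u1 at *
    generalize gR κ x = G0 at *
    generalize gR κ (q * x) = G1 at *
    generalize gR κ (q / x) = H0 at *
    field_simp
    ring
  have hdpos : ∀ x > 0, ρ x < ρ' x := by
    intro x hx
    have hk := hK x hx
    unfold KR at hk
    rw [← hAdef, ← hUdef] at hk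
    have h1 := hA x hx
    have h2 := hU x hx
    have h3 := gp (q / x)
    simp only [hρ, hρ']
    rw [div_lt_div_iff₀ h1 (by positivity)]
    nlinarith
  have hup : ∀ x > 0, ρ x < 2 * τ ∧ ρ' x < 2 * τ := by
    intro x hx
    have hxq : 0 < x / q := by positivity
    have e3 : q * (x / q) = x := by field_simp
    have h1 := e1 (x / q) hxq
    have h2 := e2 (x / q) hxq
    rw [e3] at h1 h2
    have h3 := div_pos (hWpos (x / q)) (hρpos _ hxq)
    have h4 := div_pos (hWpos (x / q)) (hρ'pos _ hxq)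
    constructor <;> linarith
  -- recursion for the difference
  set d : ℝ → ℝ := fun x => ρ' x - ρ x with hd
  have hd0 : ∀ x > 0, 0 < d x := fun x hx => by simp only [hd]; linarith [hdpos x hx]
  have rec0 : ∀ x > 0, d (q * x) = W x * d x / (ρ x * (ρ x + d x)) := by
    intro x hx
    have h1 := e1 x hx
    have h2 := e2 x hx
    have h3 := hρpos x hx
    have h4 := hρ'pos x hx
    have e3 : ρ x + d x = ρ' x := by simp only [hd]; ring
    rw [e3]
    have e4 : d (q * x) = W x / ρ x - W x / ρ' x := by simp only [hd]; linarith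
    rw [e4]
    simp only [hd]
    field_simp
  set s : ℝ → ℝ := fun x => W x / ρ' x with hs
  have rec1 : ∀ x > 0, d x = W x * d (q * x) / (s x * (s x + d (q * x))) := by
    intro x hx
    have h1 := e1 x hx
    have h2 := e2 x hx
    have h3 := hρpos x hx
    have h4 := hρ'pos x hx
    have h5 := hWpos x
    have e3 : s x + d (q * x) = W x / ρ x := by simp only [hs, hd]; linarith
    rw [e3]
    have e4 : d (q * x) = W x / ρ x - W x / ρ' x := by simp only [hd]; linarith
    rw [e4]
    simp only [hs, hd]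
    field_simp
  -- near zero
  obtain ⟨x1, hx1, near0⟩ : ∃ x1 : ℝ, 0 < x1 ∧ ∀ x, 0 < x → x ≤ x1 → ρ x * (ρ x + (1 - β)) ≤ W x := by
    have hcont : ContinuousAt (fun x => W x - ρ x * (ρ x + (1 - β))) 0 := by
      simp only [hρ, hW]
      have c1 : Continuous fun x : ℝ => A (q * x) := cA.comp (by fun_prop)
      have c2 : Continuous fun x : ℝ => gR κ (q * x) := cg.comp (by fun_prop)
      have hA0 : A 0 ≠ 0 := by rw [hAdef, evA_zero]; exact one_ne_zero
      have hg0 : gR κ 0 ≠ 0 := (gp 0).ne'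
      have c3 : ContinuousAt (fun x => β * gR κ (q * x) * A (q * x) / A x) 0 :=
        ((continuous_const.mul c2).mul c1).continuousAt.div cA.continuousAt hA0
      have c4 : ContinuousAt (fun x => gR κ (q * x) / gR κ x) 0 :=
        c2.continuousAt.div cg.continuousAt hg0
      exact c4.sub (c3.mul (c3.add continuousAt_const))
    have h1 := hcont.tendsto
    have hval : W 0 - ρ 0 * (ρ 0 + (1 - β)) = 1 - β := by
      simp only [hW, hρ, mul_zero, hAdef, evA_zero, gR_zero]
      ring
    rw [hval] at h1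
    have h2 := h1.eventually (lt_mem_nhds (show (0:ℝ) < 1 - β by linarith))
    obtain ⟨ε, hε, h3⟩ := Metric.eventually_nhds_iff.1 h2
    refine ⟨ε / 2, by positivity, fun x hx0 hx => ?_⟩
    have := h3 (show dist x 0 < ε by rw [Real.dist_eq, sub_zero, abs_of_pos hx0]; linarith)
    linarith
  -- near infinity
  set c' : ℝ := (σ ^ 2 - q ^ 2) / (2 * σ) with hc'
  have hσq : q ^ 2 < σ ^ 2 := by have := P.hσ; nlinarith
  have hc'pos : 0 < c' := by rw [hc']; apply div_pos <;> linarith
  obtain ⟨x2, hx2, far⟩ : ∃ x2 : ℝ, 0 < x2 ∧ ∀ x, x2 ≤ x → s x * (s x + c') ≤ W x := by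
    set Wv : ℝ → ℝ := fun v => q ^ 2 * gR κ (v / q) / gR κ v with hWv
    set sv : ℝ → ℝ := fun v => Wv v * (gR κ (q * v) * U v) / (σ * U (v / q)) with hsv
    have hWx : ∀ x > 0, W x = Wv (1 / x) := by
      intro x hx
      simp only [hW, hWv]
      have a1 : 1 / x / q = 1 / (q * x) := by field_simp
      rw [a1, gR_inv κ hx.ne', gR_inv κ (x := q * x) (by positivity)]
      have g0 := gp x
      field_simp
    have hsx : ∀ x > 0, s x = sv (1 / x) := by
      intro x hx
      simp only [hs, hsv, hρ']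
      rw [hWx x hx]
      have a1 : 1 / x / q = 1 / (q * x) := by field_simp
      have a2 : q * (1 / x) = q / x := by ring
      rw [a1, a2]
      have h1 := hU x hx
      have h2 := hU (q * x) (by positivity)
      have h3 := gp (q / x)
      field_simp
    have hcont : ContinuousAt (fun v => Wv v - sv v * (sv v + c')) 0 := by
      have c1 : Continuous fun x : ℝ => U (x / q) := cU.comp (by fun_prop)
      have c2 : Continuous fun x : ℝ => gR κ (q * x) := cg.comp (by fun_prop)
      have c2' : Continuous fun x : ℝ => gR κ (x / q) := cg.comp (by fun_prop)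
      have hU0 : σ * U (0 / q) ≠ 0 := by rw [zero_div, hUdef, evU_zero]; simpa using hσ.ne'
      have c4 : ContinuousAt Wv 0 :=
        (continuous_const.mul c2').continuousAt.div cg.continuousAt (gp 0).ne'
      have c3 : ContinuousAt sv 0 :=
        (c4.mul (c2.mul cU).continuousAt).div (continuous_const.mul c1).continuousAt hU0
      exact c4.sub (c3.mul (c3.add continuousAt_const))
    have h1 := hcont.tendsto
    have hval : Wv 0 - sv 0 * (sv 0 + c') = q ^ 2 * (σ ^ 2 - q ^ 2) / (2 * σ ^ 2) := by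
      simp only [hWv, hsv, hc', zero_div, mul_zero, hUdef, evU_zero, gR_zero]
      field_simp
      ring
    rw [hval] at h1
    have hvpos : 0 < q ^ 2 * (σ ^ 2 - q ^ 2) / (2 * σ ^ 2) := by
      have : 0 < σ ^ 2 - q ^ 2 := by linarith
      positivity
    have h2 := h1.eventually (lt_mem_nhds hvpos)
    obtain ⟨ε, hε, h3⟩ := Metric.eventually_nhds_iff.1 h2
    refine ⟨2 / ε, by positivity, fun x hx => ?_⟩
    have hx0 : 0 < x := lt_of_lt_of_le (by positivity) hx
    have h5 : dist (1 / x) 0 < ε := by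
      rw [Real.dist_eq, sub_zero, abs_of_pos (by positivity), div_lt_iff₀ hx0]
      rw [div_le_iff₀ hε] at hx
      nlinarith
    have := h3 h5
    rw [hWx x hx0, hsx x hx0]
    linarith
  -- the middle
  set X2 := max x1 x2 with hX2
  have hqx1 : 0 < q * x1 := by positivity
  have hle12 : q * x1 ≤ X2 := by
    have : q * x1 ≤ x1 := by nlinarith
    exact this.trans (le_max_left _ _)
  have hdc : ContinuousOn d (Set.Icc (q * x1) X2) := by
    intro x hx
    have hx0 : 0 < x := hqx1.trans_le hx.1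
    apply ContinuousAt.continuousWithinAt
    have c1 : Continuous fun x : ℝ => A (q * x) := cA.comp (by fun_prop)
    have c2 : Continuous fun x : ℝ => gR κ (q * x) := cg.comp (by fun_prop)
    have c3 : ContinuousAt ρ x :=
      ((continuous_const.mul c2).mul c1).continuousAt.div cA.continuousAt (hA x hx0).ne'
    have i1 : ContinuousAt (fun x : ℝ => 1 / x) x := continuousAt_const.div continuousAt_id hx0.ne'
    have i2 : ContinuousAt (fun x : ℝ => 1 / (q * x)) x :=
      continuousAt_const.div (continuousAt_const.mul continuousAt_id) (by positivity)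
    have i3 : ContinuousAt (fun x : ℝ => q / x) x := continuousAt_const.div continuousAt_id hx0.ne'
    have k1 : ContinuousAt (fun x : ℝ => U (1 / x)) x := cU.continuousAt.comp i1
    have k2 : ContinuousAt (fun x : ℝ => U (1 / (q * x))) x := cU.continuousAt.comp (f := fun x : ℝ => 1 / (q * x)) i2
    have k3 : ContinuousAt (fun x : ℝ => gR κ (q / x)) x := cg.continuousAt.comp (f := fun x : ℝ => q / x) i3
    have c4 : ContinuousAt ρ' x :=
      (continuousAt_const.mul k2).div (k3.mul k1) (mul_pos (gp _) (hU x hx0)).ne'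
    exact c4.sub c3
  obtain ⟨xm, hxm, hxmin⟩ := isCompact_Icc.exists_isMinOn (Set.nonempty_Icc.2 hle12) hdc
  set m0 := d xm with hm0
  have hm0pos : 0 < m0 := hd0 xm (hqx1.trans_le hxm.1)
  set μ := min m0 (min (1 - β) c') with hμ
  have hμpos : 0 < μ := lt_min hm0pos (lt_min (by linarith) hc'pos)
  have hμ1 : μ ≤ m0 := min_le_left _ _
  have hμ2 : μ ≤ 1 - β := (min_le_right _ _).trans (min_le_left _ _)
  have hμ3 : μ ≤ c' := (min_le_right _ _).trans (min_le_right _ _)
  have mid : ∀ x, q * x1 ≤ x → x ≤ X2 → μ ≤ d x := fun x h1 h2 => hμ1.trans (hxmin ⟨h1, h2⟩)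
  have low : ∀ n : ℕ, ∀ x, q * x1 ≤ x → x ≤ x1 → μ ≤ d (x * q ^ n) := by
    intro n
    induction n with
    | zero =>
      intro x h1 h2
      rw [pow_zero, mul_one]
      exact mid x h1 (h2.trans (le_max_left _ _))
    | succ n ih =>
      intro x h1 h2
      have hx0 : 0 < x := hqx1.trans_le h1
      have h3 := ih x h1 h2
      have hy0 : 0 < x * q ^ n := by positivity
      have hyle : x * q ^ n ≤ x1 := by
        have : q ^ n ≤ 1 := pow_le_one₀ hq.le hq1.le
        nlinarith
      have e3 : x * q ^ (n + 1) = q * (x * q ^ n) := by rw [pow_succ]; ring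
      rw [e3, rec0 _ hy0]
      exact le_trans (le_min h3 hμ2) (step_ineq (hρpos _ hy0) (hd0 _ hy0) (by linarith) (near0 _ hy0 hyle))
  have below : ∀ x, 0 < x → x ≤ X2 → μ ≤ d x := by
    intro x hx hx2
    rcases le_or_gt x x1 with hle | hgt
    · have e5 : q * x1 / q = x1 := by field_simp
      obtain ⟨j, hj⟩ := exists_fund hq hq1 hqx1 hx (by rw [e5]; exact hle)
      rw [e5] at hj
      have e : x = x / q ^ j * q ^ j := by field_simp
      rw [e]
      exact low j _ hj.1 hj.2
    · exact mid x (by nlinarith) hx2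
  have all : ∀ n : ℕ, ∀ x, 0 < x → x * q ^ n ≤ X2 → μ ≤ d x := by
    intro n
    induction n with
    | zero => intro x hx h; exact below x hx (by simpa using h)
    | succ n ih =>
      intro x hx h
      rcases le_or_gt x X2 with hle | hgt
      · exact below x hx hle
      · have hy0 : 0 < q * x := by positivity
        have h1 : μ ≤ d (q * x) := by
          apply ih (q * x) hy0
          calc q * x * q ^ n = x * q ^ (n + 1) := by rw [pow_succ]; ring
            _ ≤ _ := h
        rw [rec1 x hx]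
        exact le_trans (le_min h1 hμ3)
          (step_ineq (div_pos (hWpos x) (hρ'pos x hx)) (hd0 _ hy0) hc'pos (far x ((le_max_right _ _).trans hgt.le)))
  have hX2 : 0 < X2 := hx1.trans_le (le_max_left _ _)
  have hdlow : ∀ x > 0, μ ≤ d x := by
    intro x hx
    obtain ⟨n, hn⟩ := exists_pow_small hq hq1 hx hX2
    exact all n x hx hn
  -- lower bound for `W`
  have hWlow : ∀ x > 0, (1 - κ) * q ^ 2 ≤ W x := by
    intro x hx
    simp only [hW]
    rw [le_div_iff₀ (gp x)]
    have h1 : gR κ x ≤ 1 + x ^ 2 := by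
      unfold gR
      have : 0 ≤ 2 * κ * x := by positivity
      linarith
    have h2 : (1 - κ) * (1 + (q * x) ^ 2) ≤ gR κ (q * x) := by
      unfold gR
      nlinarith [mul_nonneg hκ0 (sq_nonneg (1 - q * x))]
    have h3 : q ^ 2 * (1 + x ^ 2) ≤ 1 + (q * x) ^ 2 := by nlinarith
    have h4 : 0 < 1 - κ := by linarith
    calc (1 - κ) * q ^ 2 * gR κ x ≤ (1 - κ) * q ^ 2 * (1 + x ^ 2) := by gcongr
      _ = (1 - κ) * (q ^ 2 * (1 + x ^ 2)) := by ring
      _ ≤ (1 - κ) * (1 + (q * x) ^ 2) := by gcongr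
      _ ≤ _ := h2
  have h1κ : 0 < 1 - κ := by linarith
  set ε := (1 - κ) * q ^ 2 * μ ^ 2 / (64 * τ ^ 3) with hε
  refine ⟨ε, by positivity, fun x => (ρ x + ρ' x) / 2, ?_⟩
  intro x hx
  have hx0 : 0 < x := hx
  have p1 := hρpos x hx0
  have p2 := hρ'pos x hx0
  refine ⟨by beta_reduce; linarith, ?_⟩
  have h1 := e1 x hx0
  have h2 := e2 x hx0
  have h3 := hdlow x hx0
  have h4 := hWlow x hx0
  obtain ⟨b1, b2⟩ := hup x hx0
  have hgap : W x / ρ x / 2 + W x / ρ' x / 2 - W x / ((ρ x + ρ' x) / 2) =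
      W x * d x ^ 2 / (2 * ρ x * ρ' x * (ρ x + ρ' x)) := by
    simp only [hd]
    field_simp
    ring
  have hge : 2 * ε ≤ W x * d x ^ 2 / (2 * ρ x * ρ' x * (ρ x + ρ' x)) := by
    have hden : 2 * ρ x * ρ' x * (ρ x + ρ' x) ≤ 32 * τ ^ 3 := by
      calc 2 * ρ x * ρ' x * (ρ x + ρ' x) ≤ 2 * (2 * τ) * (2 * τ) * (2 * τ + 2 * τ) := by gcongr
        _ = 32 * τ ^ 3 := by ring
    calc 2 * ε = ((1 - κ) * q ^ 2 * μ ^ 2) / (32 * τ ^ 3) := by rw [hε]; field_simp; norm_num
      _ ≤ (W x * d x ^ 2) / (2 * ρ x * ρ' x * (ρ x + ρ' x)) := by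
          apply div_le_div₀ _ _ (by positivity) hden
          · have := hWpos x; positivity
          · have := hWpos x
            gcongr
  have hWeq : gR κ (q * x) / gR κ x = W x := rfl
  beta_reduce
  rw [hWeq]
  linarith

end

end Pool.Agent.helper71.NO
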