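import Mathlib
import Pool.Agent.helper71.NO.Strict
import Pool.Agent.helper71.NO.Orbit

set_option autoImplicit false

namespace Pool.Agent.helper71.NO

open Finset Filter Topology

noncomputable section

/-- smaller root of `1 + β² = 2 τ β` -/
def bt (τ : ℝ) : ℝ := τ - Real.sqrt (τ ^ 2 - 1)

/-- larger root of `σ² + q² = 2 τ σ` -/
def st (q τ : ℝ) : ℝ := τ + Real.sqrt (τ ^ 2 - q ^ 2)

/-- the base point -/
def zt (q τ : ℝ) : ℝ := Real.sqrt (1 / (bt τ * st q τ))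

/-- values of the form on the orbit of `z` at unit vectors -/
def OV (κ q z : ℝ) : Set ℝ := {s | ∃ (m : ℤ) (N : ℕ) (y : ℕ → ℝ),
  ∑ n ∈ range (N + 1), y n ^ 2 = 1 ∧ s = ∑ n ∈ range N, bR κ q (z * q ^ m * q ^ n) * y n * y (n + 1)}

/-- values of all the forms at unit vectors -/
def JVR (κ q : ℝ) : Set ℝ := {t | ∃ u : ℝ, 0 < u ∧ ∃ (N : ℕ) (y : ℕ → ℝ),
  ∑ n ∈ range (N + 1), y n ^ 2 = 1 ∧ t = ∑ n ∈ range N, bR κ q (u * q ^ n) * y n * y (n + 1)}

variable {κ q τ w : ℝ}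

lemma par_of (hκ : κ ^ 2 < 1) (hq : 0 < q) (hq1 : q < 1) (hτ : 1 ≤ τ) : Par κ q τ (bt τ) (st q τ) := by
  have h1 : 0 ≤ τ ^ 2 - 1 := by nlinarith
  have h2 : 0 ≤ τ ^ 2 - q ^ 2 := by nlinarith
  have s1 := Real.sq_sqrt h1
  have s2 := Real.sq_sqrt h2
  have n1 := Real.sqrt_nonneg (τ ^ 2 - 1)
  have n2 := Real.sqrt_nonneg (τ ^ 2 - q ^ 2)
  have hlt : Real.sqrt (τ ^ 2 - 1) < τ := by
    rw [Real.sqrt_lt' (by linarith)]; linarith
  refine ⟨hκ, hq, hq1, ?_, ?_, ?_, ?_, ?_⟩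
  · unfold bt; linarith
  · unfold bt
    by_contra hcon
    push Not at hcon
    have : Real.sqrt (τ ^ 2 - 1) < τ - 1 := by linarith
    have h3 := mul_self_lt_mul_self n1 this
    nlinarith
  · unfold bt; nlinarith
  · unfold st; linarith
  · unfold st; nlinarith

lemma zt_pos (hκ : κ ^ 2 < 1) (hq : 0 < q) (hq1 : q < 1) (hτ : 1 ≤ τ) : 0 < zt q τ := by
  have P := par_of hκ hq hq1 hτ
  have := P.hβ
  have := P.σpos
  exact Real.sqrt_pos.2 (by positivity)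

lemma zt_sq (hκ : κ ^ 2 < 1) (hq : 0 < q) (hq1 : q < 1) (hτ : 1 ≤ τ) :
    zt q τ ^ 2 = 1 / (bt τ * st q τ) := by
  have P := par_of hκ hq hq1 hτ
  have := P.hβ
  have := P.σpos
  exact Real.sq_sqrt (by positivity)

lemma orb_subset (hq : 0 < q) {z : ℝ} (hz : 0 < z) : ∀ x ∈ orb q z, x ∈ Set.Ioi (0:ℝ) := by
  rintro x ⟨m, rfl⟩
  exact show 0 < z * q ^ m by positivity

/-- from the orbit to the half line -/
theorem orbit_to_line (hκ0 : 0 ≤ κ) (hκ : κ ^ 2 < 1) (hq : 0 < q) (hq1 : q < 1) (hτ : 1 ≤ τ) :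
    (∃ r, Sup κ q τ (orb q (zt q τ)) r) ↔ ∃ r, Sup κ q τ (Set.Ioi 0) r := by
  have P := par_of hκ hq hq1 hτ
  have hz := zt_pos hκ hq hq1 hτ
  have hz2 := zt_sq hκ hq hq1 hτ
  constructor
  · rintro ⟨r, hr⟩
    have hO := Inv.orb hq hz
    have hzO : zt q τ ∈ orb q (zt q τ) := ⟨0, by simp⟩
    have hKz := P.K_nonneg hO hr hzO
    have hK : ∀ x > 0, 0 ≤ KR κ q (bt τ) (st q τ) x := fun x hx => P.K_transfer hκ0 hz hz2 hKz hx
    have hA := P.A_pos hK hz (fun x hx => (P.PA_all hO hr hx).1)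
    refine ⟨fun x => bt τ * gR κ (q * x) * evr (Aco κ q (bt τ)) (q * x) / evr (Aco κ q (bt τ)) x, ?_⟩
    intro x hx
    have h := P.sup_of_A (Inv.Ioi hq) hA hx
    exact ⟨h.1, h.2.le⟩
  · rintro ⟨r, hr⟩
    exact ⟨r, fun x hx => hr x (orb_subset hq hz x hx)⟩

/-- strict positivity of `K` at the base point -/
theorem K_pos_of_lt (hκ : κ ^ 2 < 1) (hq : 0 < q) (hq1 : q < 1) (hτ : 1 ≤ τ) {τ' : ℝ} (hlt : τ' < τ)
    (h : ∃ r, Sup κ q τ' (orb q (zt q τ)) r) : 0 < KR κ q (bt τ) (st q τ) (zt q τ) := by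
  obtain ⟨r, hr⟩ := h
  have P := par_of hκ hq hq1 hτ
  have hz := zt_pos hκ hq hq1 hτ
  exact P.K_strict (Inv.orb hq hz) hr hlt ⟨0, by simp⟩

/-- improvement of the constant -/
theorem lt_of_K_pos (hκ0 : 0 ≤ κ) (hκ : κ ^ 2 < 1) (hq : 0 < q) (hq1 : q < 1) (hτ : 1 < τ)
    (h : ∃ r, Sup κ q τ (Set.Ioi 0) r) (hK : 0 < KR κ q (bt τ) (st q τ) (zt q τ)) :
    ∃ ε : ℝ, 0 < ε ∧ ∃ r, Sup κ q (τ - ε) (Set.Ioi 0) r := by
  obtain ⟨r, hr⟩ := h
  have P := par_of hκ hq hq1 hτ.le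
  have hz := zt_pos hκ hq hq1 hτ.le
  have hz2 := zt_sq hκ hq hq1 hτ.le
  have hβ1 : bt τ < 1 := by
    refine lt_of_le_of_ne P.hβ1 (fun h1 => ?_)
    have := P.h1
    rw [h1] at this
    linarith
  exact P.strict hκ0 hβ1 (fun x hx => (P.PA_all (Inv.Ioi hq) hr hx).1)
    (fun x hx => (P.PU_all (Inv.Ioi hq) hr hx).1)
    (fun x hx => P.K_transfer_pos hκ0 hz hz2 hK hx)

/-- no supersolution below one -/
theorem one_le_of_sup (hκ : κ ^ 2 < 1) (hq : 0 < q) (hq1 : q < 1) {z : ℝ} (hz : 0 < z)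
    (h : ∃ r, Sup κ q τ (orb q z) r) : 1 ≤ τ := by
  by_contra hcon
  push Not at hcon
  obtain ⟨r, hr⟩ := h
  have hO := Inv.orb hq hz
  have gp : ∀ x, 0 < gR κ x := gR_pos hκ
  have hτ0 : 0 < τ := by
    have hzO : z ∈ orb q z := ⟨0, by simp⟩
    have h1 := hr z hzO
    have h2 := (hr _ (hO z hzO).2.1).1
    have h3 : 0 < gR κ (q * z) / gR κ z / r z := div_pos (div_pos (gp _) (gp _)) h1.1
    linarith [h1.2]
  set ω := (1 + τ) / 2 with hω
  have hω1 : ω < 1 := by rw [hω]; linarith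
  have hωτ : τ < ω := by rw [hω]; linarith
  obtain ⟨δ, hδ, hnear⟩ : ∃ δ : ℝ, 0 < δ ∧ ∀ x, 0 < x → x ≤ δ → ω ^ 2 ≤ gR κ (q * x) / gR κ x := by
    have hcont : ContinuousAt (fun x => gR κ (q * x) / gR κ x) 0 := by
      have c2 : Continuous fun x : ℝ => gR κ (q * x) := (gR_cont κ).comp (by fun_prop)
      exact c2.continuousAt.div (gR_cont κ).continuousAt (gp 0).ne'
    have h1 := hcont.tendsto
    simp only [mul_zero, gR_zero, div_one] at h1
    have h2 := h1.eventually (lt_mem_nhds (show ω ^ 2 < 1 by nlinarith))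
    obtain ⟨ε, hε, h3⟩ := Metric.eventually_nhds_iff.1 h2
    refine ⟨ε / 2, by positivity, fun x hx0 hx => ?_⟩
    have := h3 (show dist x 0 < ε by rw [Real.dist_eq, sub_zero, abs_of_pos hx0]; linarith)
    exact this.le
  obtain ⟨N, hN⟩ := exists_pow_small hq hq1 hz hδ
  have hzO : z ∈ orb q z := ⟨0, by simp⟩
  have hbound : ∀ n : ℕ, r (z * q ^ N * q ^ n) ≤ r (z * q ^ N) - n * (2 * (ω - τ)) := by
    intro n
    induction n with
    | zero => simp
    | succ n ih =>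
      have hmem : z * q ^ N * q ^ n ∈ orb q z := hO.mul_pow (hO.mul_pow hzO N) n
      obtain ⟨r0, r1⟩ := hr _ hmem
      have e3 : q * (z * q ^ N * q ^ n) = z * q ^ N * q ^ (n + 1) := by rw [pow_succ]; ring
      rw [e3] at r1
      have hx0 : 0 < z * q ^ N * q ^ n := by positivity
      have hxle : z * q ^ N * q ^ n ≤ δ := by
        have : q ^ n ≤ 1 := pow_le_one₀ hq.le hq1.le
        have : 0 < z * q ^ N := by positivity
        nlinarith
      have hW := hnear _ hx0 hxle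
      rw [e3] at hW
      have h4 : ω ^ 2 / r (z * q ^ N * q ^ n) ≤
          gR κ (z * q ^ N * q ^ (n + 1)) / gR κ (z * q ^ N * q ^ n) / r (z * q ^ N * q ^ n) := by
        gcongr
      have h5 : 2 * ω - r (z * q ^ N * q ^ n) ≤ ω ^ 2 / r (z * q ^ N * q ^ n) := by
        rw [le_div_iff₀ r0]
        nlinarith [sq_nonneg (ω - r (z * q ^ N * q ^ n))]
      push_cast
      linarith
  obtain ⟨n, hn⟩ := exists_nat_gt (r (z * q ^ N) / (2 * (ω - τ)))
  rw [div_lt_iff₀ (by linarith)] at hn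
  have h6 := hbound n
  have h7 := (hr _ (hO.mul_pow (hO.mul_pow hzO N) n)).1
  linarith

/-- supersolutions from bounds on the form -/
theorem sup_of_OV (hκ : κ ^ 2 < 1) (hq : 0 < q) {z t : ℝ} (hz : 0 < z) (ht : 0 < t)
    (h : ∀ s ∈ OV κ q z, s ≤ t) : ∃ r, Sup κ q (t * Real.sqrt q) (orb q z) r := by
  apply orbit_sup hκ hq ht (Inv.orb hq hz)
  rintro u ⟨m, rfl⟩ N y
  by_cases h0 : ∑ n ∈ range (N + 1), y n ^ 2 = 0
  · have hy : ∀ n ∈ range (N + 1), y n = 0 := by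
      intro n hn
      have := (sum_eq_zero_iff_of_nonneg (fun i _ => sq_nonneg (y i))).1 h0 n hn
      exact pow_eq_zero_iff (two_ne_zero) |>.1 this
    rw [h0, mul_zero]
    apply le_of_eq
    apply sum_eq_zero
    intro n hn
    rw [hy n (mem_range.2 (by have := mem_range.1 hn; omega))]
    ring
  · have hpos : 0 < ∑ n ∈ range (N + 1), y n ^ 2 :=
      lt_of_le_of_ne (sum_nonneg fun i _ => sq_nonneg _) (Ne.symm h0)
    set R := Real.sqrt (∑ n ∈ range (N + 1), y n ^ 2) with hR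
    have hR0 : 0 < R := Real.sqrt_pos.2 hpos
    have hR2 : R ^ 2 = ∑ n ∈ range (N + 1), y n ^ 2 := Real.sq_sqrt hpos.le
    have h1 := h (∑ n ∈ range N, bR κ q (z * q ^ m * q ^ n) * (y n / R) * (y (n + 1) / R))
      ⟨m, N, fun n => y n / R, by
        have : ∑ n ∈ range (N + 1), (y n / R) ^ 2 = (∑ n ∈ range (N + 1), y n ^ 2) / R ^ 2 := by
          rw [sum_div]
          exact sum_congr rfl fun n _ => div_pow _ _ _
        rw [this, ← hR2, div_self (by positivity)], rfl⟩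
    have h2 : ∑ n ∈ range N, bR κ q (z * q ^ m * q ^ n) * (y n / R) * (y (n + 1) / R) =
        (∑ n ∈ range N, bR κ q (z * q ^ m * q ^ n) * y n * y (n + 1)) / R ^ 2 := by
      rw [sum_div]
      apply sum_congr rfl
      intro n _
      field_simp
    rw [h2, div_le_iff₀ (by positivity), hR2] at h1
    exact h1

lemma OV_subset (hq : 0 < q) {z : ℝ} (hz : 0 < z) : OV κ q z ⊆ JVR κ q := by
  rintro s ⟨m, N, y, hy, rfl⟩
  exact ⟨z * q ^ m, by positivity, N, y, hy, rfl⟩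

lemma zero_mem_OV (κ q z : ℝ) : (0:ℝ) ∈ OV κ q z := ⟨0, 0, fun _ => 1, by simp, by simp⟩

/-- the main theorem in terms of `κ`, `q` and `w` -/
theorem core (hκ0 : 0 ≤ κ) (hκ : κ ^ 2 < 1) (hq : 0 < q) (hq1 : q < 1) (hlub : IsLUB (JVR κ q) w)
    (hdual : ∀ lam : ℝ, w ≤ lam ↔ ∃ E : ℝ → ℝ, (∀ x > 0, 0 < E x) ∧
      ∀ x > 0, (E (q * x) + bR κ q x ^ 2 / E x) / 2 ≤ lam)
    (hlow : 1 / Real.sqrt q ≤ w) :
    (∀ t, 1 / Real.sqrt q ≤ t → (w ≤ t ↔ ∀ s ∈ OV κ q (zt q (t * Real.sqrt q)), s ≤ t)) ∧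
    (∀ t, 1 / Real.sqrt q ≤ t → (IsLUB (OV κ q (zt q (t * Real.sqrt q))) t ↔ t = w)) ∧
    (∀ t, 1 / Real.sqrt q < t → w < t →
      0 < KR κ q (bt (t * Real.sqrt q)) (st q (t * Real.sqrt q)) (zt q (t * Real.sqrt q))) ∧
    (1 / Real.sqrt q < w →
      KR κ q (bt (w * Real.sqrt q)) (st q (w * Real.sqrt q)) (zt q (w * Real.sqrt q)) = 0) := by
  have hsq : 0 < Real.sqrt q := Real.sqrt_pos.2 hq
  have hsq2 : Real.sqrt q ^ 2 = q := Real.sq_sqrt hq.le
  have gp : ∀ x, 0 < gR κ x := gR_pos hκ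
  have hτ1 : ∀ t, 1 / Real.sqrt q ≤ t → 1 ≤ t * Real.sqrt q := fun t ht => by
    rw [div_le_iff₀ hsq] at ht; exact ht
  have hτ1' : ∀ t, 1 / Real.sqrt q < t → 1 < t * Real.sqrt q := fun t ht => by
    rw [div_lt_iff₀ hsq] at ht; exact ht
  have hb : ∀ x, bR κ q x ^ 2 = gR κ (q * x) / (q * gR κ x) := by
    intro x
    have h1 := gp x
    have h2 := gp (q * x)
    exact Real.sq_sqrt (by positivity)
  -- `w ≤ t` in terms of supersolutions
  have A1 : ∀ t, w ≤ t ↔ ∃ r, Sup κ q (t * Real.sqrt q) (Set.Ioi 0) r := by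
    intro t
    rw [hdual t]
    have key : ∀ (E r : ℝ → ℝ), (∀ x, r x = Real.sqrt q * E x) → ∀ x > 0, 0 < E x →
        ((E (q * x) + bR κ q x ^ 2 / E x) / 2 ≤ t ↔
          r (q * x) + gR κ (q * x) / gR κ x / r x ≤ 2 * (t * Real.sqrt q)) := by
      intro E r hr x _ hE
      rw [hr, hr, hb]
      have g0 := gp x
      have e1 : Real.sqrt q * E (q * x) + gR κ (q * x) / gR κ x / (Real.sqrt q * E x) =
          Real.sqrt q * (E (q * x) + gR κ (q * x) / (q * gR κ x) / E x) := by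
        have : gR κ (q * x) / (q * gR κ x) / E x = gR κ (q * x) / (Real.sqrt q ^ 2 * gR κ x) / E x := by
          rw [hsq2]
        rw [this]
        field_simp
      rw [e1]
      constructor
      · intro h
        have h1 : E (q * x) + gR κ (q * x) / (q * gR κ x) / E x ≤ 2 * t := by linarith
        have := mul_le_mul_of_nonneg_left h1 hsq.le
        linarith
      · intro h
        have h2 : Real.sqrt q * (E (q * x) + gR κ (q * x) / (q * gR κ x) / E x) ≤ Real.sqrt q * (2 * t) := by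
          linarith
        have := le_of_mul_le_mul_left h2 hsq
        linarith
    constructor
    · rintro ⟨E, hE, hE2⟩
      refine ⟨fun x => Real.sqrt q * E x, fun x hx => ⟨mul_pos hsq (hE x hx), ?_⟩⟩
      exact (key E _ (fun _ => rfl) x hx (hE x hx)).1 (hE2 x hx)
    · rintro ⟨r, hr⟩
      refine ⟨fun x => r x / Real.sqrt q, fun x hx => div_pos (hr x hx).1 hsq, fun x hx => ?_⟩
      exact (key (fun x => r x / Real.sqrt q) r (fun x => by field_simp) x hx (div_pos (hr x hx).1 hsq)).2 (hr x hx).2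
  have A2 : ∀ t, 1 / Real.sqrt q ≤ t →
      (w ≤ t ↔ ∃ r, Sup κ q (t * Real.sqrt q) (orb q (zt q (t * Real.sqrt q))) r) := by
    intro t ht
    rw [A1, orbit_to_line hκ0 hκ hq hq1 (hτ1 t ht)]
  have hwpos : 0 < w := lt_of_lt_of_le (by positivity) hlow
  have hOVw : ∀ t, 1 / Real.sqrt q ≤ t → ∀ s ∈ OV κ q (zt q (t * Real.sqrt q)), s ≤ w := by
    intro t ht s hs
    exact hlub.1 (OV_subset hq (zt_pos hκ hq hq1 (hτ1 t ht)) hs)
  have T1 : ∀ t, 1 / Real.sqrt q ≤ t → (w ≤ t ↔ ∀ s ∈ OV κ q (zt q (t * Real.sqrt q)), s ≤ t) := by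
    intro t ht
    have ht0 : 0 < t := lt_of_lt_of_le (by positivity) ht
    constructor
    · intro h s hs
      exact (hOVw t ht s hs).trans h
    · intro h
      exact (A2 t ht).2 (sup_of_OV hκ hq (zt_pos hκ hq hq1 (hτ1 t ht)) ht0 h)
  have A4 : ∀ t, 1 / Real.sqrt q < t → w ≤ t →
      0 < KR κ q (bt (t * Real.sqrt q)) (st q (t * Real.sqrt q)) (zt q (t * Real.sqrt q)) → w < t := by
    intro t ht hwt hK
    obtain ⟨ε, hε, hr⟩ := lt_of_K_pos hκ0 hκ hq hq1 (hτ1' t ht) ((A1 t).1 hwt) hK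
    have e : (t - ε / Real.sqrt q) * Real.sqrt q = t * Real.sqrt q - ε := by field_simp
    rw [← e] at hr
    have h1 := (A1 _).2 hr
    have : 0 < ε / Real.sqrt q := by positivity
    linarith
  refine ⟨T1, ?_, ?_, ?_⟩
  · intro t ht
    constructor
    · intro h
      apply le_antisymm
      · exact h.2 (fun s hs => hOVw t ht s hs)
      · exact (T1 t ht).2 (fun s hs => h.1 hs)
    · intro htw
      subst htw
      refine ⟨fun s hs => hOVw t ht s hs, fun t' ht' => ?_⟩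
      by_contra hcon
      push Not at hcon
      have h0 : 0 ≤ t' := ht' (zero_mem_OV κ q _)
      set t2 := (t' + t) / 2 with ht2
      have ht2pos : 0 < t2 := by rw [ht2]; linarith
      have ht2lt : t2 < t := by rw [ht2]; linarith
      have ht2ge : t' ≤ t2 := by rw [ht2]; linarith
      have hz := zt_pos hκ hq hq1 (hτ1 t ht)
      have hS := sup_of_OV hκ hq hz ht2pos (fun s hs => (ht' hs).trans ht2ge)
      have hlt2 : t2 * Real.sqrt q < t * Real.sqrt q := mul_lt_mul_of_pos_right ht2lt hsq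
      rcases eq_or_lt_of_le ht with heq | hlt
      · have h1 := one_le_of_sup hκ hq hq1 hz hS
        have h2 : t * Real.sqrt q = 1 := by rw [← heq]; field_simp
        linarith
      · have hK := K_pos_of_lt hκ hq hq1 (hτ1 t ht) hlt2 hS
        exact lt_irrefl _ (A4 t hlt le_rfl hK)
  · intro t ht hwt
    obtain ⟨r, hr⟩ := (A1 w).1 le_rfl
    have hz := zt_pos hκ hq hq1 (hτ1 t ht.le)
    exact K_pos_of_lt hκ hq hq1 (hτ1 t ht.le) (mul_lt_mul_of_pos_right hwt hsq)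
      ⟨r, fun x hx => hr x (orb_subset hq hz x hx)⟩
  · intro hw
    have P := par_of hκ hq hq1 (hτ1 w hw.le)
    have hz := zt_pos hκ hq hq1 (hτ1 w hw.le)
    obtain ⟨r, hr⟩ := (A1 w).1 le_rfl
    have h0 := P.K_nonneg (Inv.Ioi hq) hr (x := zt q (w * Real.sqrt q)) hz
    refine le_antisymm ?_ h0
    by_contra hcon
    push Not at hcon
    exact lt_irrefl _ (A4 w hw le_rfl hcon)

end

end Pool.Agent.helper71.NO
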