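import Pool.Agent.helper43.NO.Defs

open Finset

namespace Pool.Agent.helper71.NO

open Pool.Agent.helper43.NO

lemma pr_le (P : Finset ℕ) (u : ℝ) (hu : 0 ≤ u) : pr P u ≤ Real.exp (u * ∑ p ∈ P, 1 / (p : ℝ)) := by
  unfold pr
  rw [Finset.mul_sum, Real.exp_sum]
  refine Finset.prod_le_prod (fun p _ => by positivity) fun p _ => ?_
  have h := Real.add_one_le_exp (u * (1 / (p : ℝ)))
  have h2 : 1 + u / (p : ℝ) = u * (1 / (p : ℝ)) + 1 := by ring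
  rw [h2]
  exact h

lemma exp_le_one_add {t : ℝ} (ht : 0 ≤ t) : Real.exp (t - t ^ 2 / 2) ≤ 1 + t := by
  have h1 := Real.le_log_one_add_of_nonneg ht
  have h2 : t - t ^ 2 / 2 ≤ 2 * t / (t + 2) := by
    rw [le_div_iff₀ (by linarith)]
    nlinarith [pow_nonneg ht 3]
  calc Real.exp (t - t ^ 2 / 2) ≤ Real.exp (Real.log (1 + t)) :=
        Real.exp_le_exp.2 (h2.trans h1)
    _ = 1 + t := Real.exp_log (by linarith)

lemma sum_sq_le (P : Finset ℕ) (hP : ∀ p ∈ P, p.Prime) :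
    ∑ p ∈ P, ((p : ℝ) ^ 2)⁻¹ ≤ 1 := by
  have h := sum_Ioo_inv_sq_le (α := ℝ) 1 (P.sup id + 1)
  have hsub : P ⊆ Ioo 1 (P.sup id + 1) := by
    intro p hp
    rw [mem_Ioo]
    refine ⟨(hP p hp).one_lt, ?_⟩
    have : id p ≤ P.sup id := Finset.le_sup hp
    simp only [id] at this
    omega
  calc ∑ p ∈ P, ((p : ℝ) ^ 2)⁻¹ ≤ ∑ p ∈ Ioo 1 (P.sup id + 1), ((p : ℝ) ^ 2)⁻¹ :=
        Finset.sum_le_sum_of_subset_of_nonneg hsub fun _ _ _ => by positivity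
    _ ≤ _ := h
    _ ≤ 1 := by norm_num

lemma pr_ge (P : Finset ℕ) (v : ℝ) (hP : ∀ p ∈ P, p.Prime) (hv : 0 ≤ v) :
    Real.exp (v * (∑ p ∈ P, 1 / (p : ℝ)) - v ^ 2) ≤ pr P v := by
  have h1 : v * (∑ p ∈ P, 1 / (p : ℝ)) - v ^ 2 ≤
      ∑ p ∈ P, (v / (p : ℝ) - (v / (p : ℝ)) ^ 2 / 2) := by
    rw [Finset.sum_sub_distrib]
    have e1 : ∑ p ∈ P, v / (p : ℝ) = v * ∑ p ∈ P, 1 / (p : ℝ) := by
      rw [Finset.mul_sum]
      exact Finset.sum_congr rfl fun p _ => by ring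
    have e2 : ∑ p ∈ P, (v / (p : ℝ)) ^ 2 / 2 = v ^ 2 / 2 * ∑ p ∈ P, ((p : ℝ) ^ 2)⁻¹ := by
      rw [Finset.mul_sum]
      exact Finset.sum_congr rfl fun p _ => by rw [div_pow]; ring
    rw [e1, e2]
    have h3 := sum_sq_le P hP
    nlinarith [sq_nonneg v]
  calc Real.exp (v * (∑ p ∈ P, 1 / (p : ℝ)) - v ^ 2)
      ≤ Real.exp (∑ p ∈ P, (v / (p : ℝ) - (v / (p : ℝ)) ^ 2 / 2)) := Real.exp_le_exp.2 h1
    _ = ∏ p ∈ P, Real.exp (v / (p : ℝ) - (v / (p : ℝ)) ^ 2 / 2) := Real.exp_sum _ _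
    _ ≤ ∏ p ∈ P, (1 + v / (p : ℝ)) :=
        Finset.prod_le_prod (fun p _ => (Real.exp_pos _).le) fun p _ =>
          exp_le_one_add (by positivity)

lemma pr_eq (P : Finset ℕ) (u : ℝ) :
    pr P u = ∑ T ∈ P.powerset, u ^ T.card / ((∏ p ∈ T, p : ℕ) : ℝ) := by
  unfold pr
  rw [Finset.prod_one_add]
  refine Finset.sum_congr rfl fun T _ => ?_
  rw [Finset.prod_div_distrib, Finset.prod_const]
  push_cast
  rfl

lemma M_ge (P : Finset ℕ) (R : ℕ) (v : ℝ) (hP : ∀ p ∈ P, p.Prime) (hv : 0 ≤ v) :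
    pr P v - Real.exp (-(R : ℝ)) * pr P (Real.exp 1 * v) ≤ M P R v := by
  have _ := hP
  rw [pr_eq, pr_eq, Finset.mul_sum, ← Finset.sum_sub_distrib]
  unfold M fam
  rw [Finset.sum_filter]
  refine Finset.sum_le_sum fun T _ => ?_
  have hpos : 0 ≤ v ^ T.card / ((∏ p ∈ T, p : ℕ) : ℝ) := by positivity
  have e : Real.exp (-(R : ℝ)) * ((Real.exp 1 * v) ^ T.card / ((∏ p ∈ T, p : ℕ) : ℝ)) =
      Real.exp ((T.card : ℝ) - R) * (v ^ T.card / ((∏ p ∈ T, p : ℕ) : ℝ)) := by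
    rw [mul_pow, ← Real.exp_nat_mul, mul_one, sub_eq_add_neg, Real.exp_add]
    ring
  rw [e]
  split_ifs with h
  · have : 0 ≤ Real.exp ((T.card : ℝ) - R) * (v ^ T.card / ((∏ p ∈ T, p : ℕ) : ℝ)) := by
      positivity
    linarith
  · have h1 : (1 : ℝ) ≤ Real.exp ((T.card : ℝ) - R) := by
      rw [← Real.exp_zero]
      apply Real.exp_le_exp.2
      have : (R : ℝ) ≤ (T.card : ℝ) := by exact_mod_cast (by omega : R ≤ T.card)
      linarith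
    nlinarith

end Pool.Agent.helper71.NO
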